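import Pool.Agent.H71.AJX.Nfx

/-!
# All jets of the own path of a nonfull coordinate, labels with gradient exponents
-/

set_option autoImplicit false

namespace Pool.AJX

open Finset Real MvPolynomial
open Pool.Agent.H49.Ent Pool.Agent.H32.Dense Pool.STK Pool.KA Pool.KSAT Pool.K2S Pool.PB Pool.GEN
open Pool.S6C Pool.RCD Pool.LA91 Pool.OWN68 Pool.CHT Pool.AJW
open Pool.GRD (LbP)
open Pool.UNJ (ceI Tub)

variable {J : ℕ}

/-- **All jets of the own path of a nonfull coordinate are few bits given the ball.** -/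
theorem path_rb (K : ℕ) {h : ℝ} (hh : 0 < h) (hh1 : h ≤ 1) {ε : ℝ}
    (hε : 0 < ε) : ∃ δ : ℝ, 0 < δ ∧ ∃ N₀ : ℕ, 0 < N₀ ∧
    ∀ {m : ℕ} {S : PCl m} {C₀ : ℝ} (_ : TmC S C₀) {I : Finset (Fin m)} {κ : Fin m} {w a p q r : ℝ} (_ : 0 ≤ w) (_ : w ≤ a) (_ : a ≤ 1)
    (_ : 0 < q) (_ : w + q ≤ 1) (_ : 0 ≤ r)
    {U₀ : Type} {Qu : Qt m U₀}
    {α γ : ∀ J : ℕ, Fam m J → Type} {f : ∀ (J : ℕ) (F : Fam m J), F.Ω → α J F}
    {y : ∀ (J : ℕ) (F : Fam m J), F.Ω → γ J F}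
    (_ : ∀ (J : ℕ) (F : Fam m J), ∃ φ : α J F → PtT F, ∀ ω, ptr F J ω = φ (f J F ω))
    (_ : ∀ (J : ℕ) (F : Fam m J), ∃ φ : γ J F → ℕ, ∀ ω, F.T ω = φ (y J F ω))
    {e e' : ℝ} (_ : 0 < e) (_ : 0 < e')
    (Ψ : ∀ (J : ℕ) (F : Fam m J), (F.Ω → Prop) → ∀ V C : Type, (PtT F → V) → (LnT F → V) →
      (V → MvPolynomial (Option (Fin m)) ℝ) → (LnT F → C) → Prop)
    (_ : ∀ (J : ℕ) (F : Fam m J) (A : F.Ω → Prop) (V C : Type) (z : PtT F → V) (z' : LnT F → V)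
      (G : V → MvPolynomial (Option (Fin m)) ℝ) (c : LnT F → C), Ψ J F A V C z z' G c →
      LbOK F I κ K ⌊e' * J⌋₊ J ⌊w * J⌋₊ ⌊(r + e') * J⌋₊ ⌊(p - e) * J⌋₊ A z z' G)
    (_ : ∀ (J : ℕ) (F : Fam m J) (A B : F.Ω → Prop) (V C : Type) (z : PtT F → V)
      (z' : LnT F → V) (G : V → MvPolynomial (Option (Fin m)) ℝ) (c : LnT F → C), Sub B A →
      Ψ J F A V C z z' G c → Ψ J F B V C z z' G c),
    (∀ K₀ : ℕ, Bas S (fun J F A => ∀ (V C : Type) (z : PtT F → V) (z' : LnT F → V)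
      (G : V → MvPolynomial (Option (Fin m)) ℝ) (c : LnT F → C), Ψ J F A V C z z' G c →
      ∀ u₀ : F.Ω → U₀, Qu.P K₀ e J F A u₀ →
      ∃ (V₁ : Type) (z₁ : F.Ω → V₁), Cl2 (f J F) (vg a J F) A z₁ ∧
      CH (Pool.Agent.H49.Ent.cond F.p A True) (fun ω => c (vg w J F ω))
        (fun ω => (u₀ ω, (z₁ ω, y J F ω))) ≤ δ * q * J)) →
    (∀ i ≤ N₀, ∀ x : ℝ, 0 ≤ x → x ≤ q - q * i / N₀ →
      Bas S (fun J F A => ∀ (V C : Type) (z : PtT F → V)
      (z' : LnT F → V) (G : V → MvPolynomial (Option (Fin m)) ℝ) (c : LnT F → C),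
      Ψ J F A V C z z' G c →
      CH (Pool.Agent.H49.Ent.cond F.p A True)
        (fun ω => ⌊(2 : ℝ) ^ ((p + (q - q * i / N₀)) * J) *
          ojet F κ 0 (G (z' (slam F ⌊w * J⌋₊ ω))) ω⌋)
        (fun ω => (⌊(2 : ℝ) ^ ((p + x) * J) * ojet F κ 0 (G (z' (slam F ⌊w * J⌋₊ ω))) ω⌋,
          (z' (slam F ⌊w * J⌋₊ ω), (c (slam F ⌊w * J⌋₊ ω), F.W ω)))) ≤
        ((1 - h) * ((q - q * i / N₀) - x) * Real.log 2 + δ * q) * J)) →
    (∀ K₀ : ℕ, Bas S (fun J F A => ∀ (V C : Type) (z : PtT F → V) (z' : LnT F → V)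
      (G : V → MvPolynomial (Option (Fin m)) ℝ) (c : LnT F → C), Ψ J F A V C z z' G c →
      ∀ u₀ : F.Ω → U₀, Qu.P K₀ e J F A u₀ →
      ∃ (V₁ : Type) (z₁ : F.Ω → V₁), Cl2 (f J F) (vg a J F) A z₁ ∧
      CH (Pool.Agent.H49.Ent.cond F.p A True)
        (fun ω => ⌊(2 : ℝ) ^ ((p + q) * J) * ojet F κ 0 (G (z' (slam F ⌊w * J⌋₊ ω))) ω⌋)
        (fun ω => (u₀ ω, (z₁ ω, y J F ω))) ≤ δ * q * J)) →
    (∀ j < K + 3, j ≠ 0 → F1 S f (vg a) y Qu (qJet m I κ j w p (p - j * w)) e (δ * q)) →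
    ∀ K₀ : ℕ, Bas S (fun J F A => ∀ (V C : Type) (z : PtT F → V) (z' : LnT F → V)
        (G : V → MvPolynomial (Option (Fin m)) ℝ) (c : LnT F → C), Ψ J F A V C z z' G c →
        ∀ u₀ : F.Ω → U₀, Qu.P K₀ e J F A u₀ →
        ∃ (V₁ : Type) (z₁ : F.Ω → V₁), Cl2 (f J F) (vg a J F) A z₁ ∧
          CH (Pool.Agent.H49.Ent.cond F.p A True)
            (fun ω => ((z' (vg w J F ω), (vg w J F ω).2), (c (vg w J F ω),
              fun j : Fin (K + 3) => ⌊jr F ⌊w * J⌋₊ (2 ^ ((p + q) * J)) κ z' G j (vg w J F ω)⌋)))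
            (fun ω => (u₀ ω, (z₁ ω, y J F ω))) ≤ ε * q * J) := by
  classical
  obtain ⟨D, hD⟩ : ∃ D : ℕ, D = K + 2 := ⟨_, rfl⟩
  have hD1 : 1 ≤ D := by omega
  obtain ⟨ε₁, hε₁⟩ : ∃ ε₁ : ℝ, ε₁ = ε / (2 * (K + 4)) := ⟨_, rfl⟩
  have hε10 : 0 < ε₁ := by
    rw [hε₁]
    positivity
  obtain ⟨δ₁, hδ₁, c₀, hc₀, N₀, hN₀, H⟩ := Pool.AJ18.all_jets D hD1 hh hh1 hε10
  obtain ⟨δ, hδe⟩ : ∃ δ : ℝ, δ = min (δ₁ / 2) (ε / 4) := ⟨_, rfl⟩
  have hδ : 0 < δ := by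
    rw [hδe]
    exact lt_min (by positivity) (by positivity)
  have hδ12 : δ ≤ δ₁ / 2 := by rw [hδe]; exact min_le_left _ _
  have hδε : δ ≤ ε / 4 := by rw [hδe]; exact min_le_right _ _
  refine ⟨δ, hδ, N₀, hN₀, ?_⟩
  intro m S C₀ htm I κ w a p q r hw0 hwa ha hq hwq hr U₀ Qu α γ f y hf hy e e' he he1 Ψ hΨl hΨ hc
    hnf hval hnat K₀
  have hw1 : w < 1 := by linarith
  have hN0 : (0 : ℝ) < N₀ := by exact_mod_cast hN₀
  have hδq : 0 < δ₁ * q := by positivity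
  obtain ⟨J₃, H⟩ := H hw0 hq hwq
  -- the jets
  obtain ⟨Nj, hNj⟩ : ∃ Nj : ℕ → ℝ, Nj = fun j : ℕ => if j = 0 then p + q else p - (j : ℝ) * w :=
    ⟨_, rfl⟩
  have hF : ∀ j < K + 3, j ≠ 0 → F1 S f (vg a) y Qu (qJet m I κ j w p (Nj j)) e (δ * q) := by
    intro j hj h0
    have e1 : Nj j = p - j * w := by rw [hNj]; exact if_neg h0
    rw [e1]
    exact hnat j hj h0
  choose M Jm hcnt using fun j : ℕ => cnt_jet m K j (N := Nj j) (w := w) hr he1
  obtain ⟨M', hM'⟩ : ∃ M' : ℕ, M' = K₀ + K + ∑ j ∈ range (K + 3), M j := ⟨_, rfl⟩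
  obtain ⟨J₁, hJ₁⟩ : ∃ J₁ : ℕ, J₁ = ∑ j ∈ range (K + 3), Jm j := ⟨_, rfl⟩
  have hl7' : 0 ≤ Real.log 7 := Real.log_nonneg (by norm_num)
  obtain ⟨J₂, hJ₂⟩ := exists_nat_ge (Real.log 7 / (δ₁ / 2 * q) + (K + 3) * Real.log 7 / (ε / 4 * q))
  have hFa : Bas S (fun J F A => ∀ j < K + 3, j ≠ 0 → ∀ (u : F.Ω → U₀) (u' : F.Ω → ℤ),
      Qu.P M' e J F A u → (qJet m I κ j w p (Nj j)).P M' e J F A u' →
      ∃ (V : Type) (z : F.Ω → V), Cl2 (f J F) (vg a J F) A z ∧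
        CH (Pool.Agent.H49.Ent.cond F.p A True) u' (fun ω => (u ω, (z ω, y J F ω))) ≤
          δ * q * J) := by
    refine Bas.all (K + 3) fun j hj => ?_
    by_cases h0 : j = 0
    · exact ⟨1, one_pos, 0, fun J _ F A _ h => absurd h0 h⟩
    · refine Bas.mono 0 (hF j hj h0 M') ?_
      intro J _ F A h _
      exact h
  refine Bas.mono (max (max J₁ J₂) J₃) (((hFa.and (hval K₀)).and
    (Bas.all (N₀ + 1) fun i _ => Bas.all (N₀ + 1) fun j _ =>
      (?_ : Bas S (fun J F A => ∀ B : F.Ω → Prop, Sub B A → Pe F.p A ≤ 1 / c₀ * Pe F.p B →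
        i ≤ j → j ≤ N₀ → ∀ (V C : Type) (z : PtT F → V)
      (z' : LnT F → V) (G : V → MvPolynomial (Option (Fin m)) ℝ) (c : LnT F → C),
      Ψ J F B V C z z' G c →
      CH (Pool.Agent.H49.Ent.cond F.p B True)
        (fun ω => ⌊(2 : ℝ) ^ ((p + (q - q * i / N₀)) * J) *
          ojet F κ 0 (G (z' (slam F ⌊w * J⌋₊ ω))) ω⌋)
        (fun ω => (⌊(2 : ℝ) ^ ((p + (q - q * j / N₀)) * J) *
          ojet F κ 0 (G (z' (slam F ⌊w * J⌋₊ ω))) ω⌋,
          (z' (slam F ⌊w * J⌋₊ ω), (c (slam F ⌊w * J⌋₊ ω), F.W ω)))) ≤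
        ((1 - h) * ((q - q * i / N₀) - (q - q * j / N₀)) * Real.log 2 + δ * q) * J)))).and
    ((hc K₀).and (Pool.GRW.tmc_bas htm (ψ := δ₁ * q) (by positivity)))) ?_
  · by_cases hij : i ≤ j ∧ j ≤ N₀
    · obtain ⟨hij, hjN⟩ := hij
      have hij' : (i : ℝ) ≤ j := by exact_mod_cast hij
      have hjN' : (j : ℝ) ≤ N₀ := by exact_mod_cast hjN
      have h1 : q * j / N₀ ≤ q := by
        rw [div_le_iff₀ hN0]
        exact mul_le_mul_of_nonneg_left hjN' hq.le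
      have h2 : q * i / N₀ ≤ q * j / N₀ := by gcongr
      refine Bas.mono 0 (Pool.GRW.bas_part (hnf i (hij.trans hjN) (q - q * j / N₀) (by linarith)
        (by linarith)) (c := 1 / c₀) (by positivity)) ?_
      intro J _ F A h4 B hB hP _ _
      exact h4 B hB hP
    · refine Bas.mono 0 (hc K₀) ?_
      intro J _ F A _ B _ _ a1 a2
      exact absurd ⟨a1, a2⟩ hij
  rintro J hJ F A ⟨⟨⟨HF, HVal⟩, HN⟩, hcA, hA, hT⟩ V Cc z z' G c hcΨ u₀ hu₀
  obtain ⟨Vc, zc, hzc, hc⟩ := hcA V Cc z z' G c hcΨ u₀ hu₀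
  have hlb := hΨl J F A V Cc z z' G c hcΨ
  have hJ1 : J₁ ≤ J := (le_max_left _ _).trans ((le_max_left _ _).trans hJ)
  have hJ2 : (J₂ : ℝ) ≤ J := by
    exact_mod_cast (le_max_right _ _).trans ((le_max_left _ _).trans hJ)
  have hJ3 : J₃ ≤ J := (le_max_right _ _).trans hJ
  have hJ0 : (0 : ℝ) ≤ J := Nat.cast_nonneg J
  have hl2' : 0 ≤ Real.log 2 := Real.log_nonneg (by norm_num)
  have hK3 : (0 : ℝ) ≤ K + 3 := by positivity
  have t0 : 0 ≤ Real.log 7 / (δ₁ / 2 * q) := by positivity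
  have t1 : 0 ≤ (K + 3) * Real.log 7 / (ε / 4 * q) := by positivity
  have hl7 : Real.log 7 ≤ δ₁ / 2 * q * J := by
    have h1 : Real.log 7 / (δ₁ / 2 * q) ≤ J := by linarith
    rw [div_le_iff₀ (by positivity)] at h1
    linarith
  have hlK : (K + 3) * Real.log 7 ≤ ε / 4 * q * J := by
    have h1 : (K + 3) * Real.log 7 / (ε / 4 * q) ≤ J := by linarith
    rw [div_le_iff₀ (by positivity)] at h1
    linarith
  have hqJ : 0 ≤ q * J := by positivity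
  have hd1 : δ * q * J ≤ δ₁ / 2 * q * J := by
    have := mul_le_mul_of_nonneg_right hδ12 hqJ
    linarith
  have hd2 : δ * q * J ≤ ε / 4 * q * J := by
    have := mul_le_mul_of_nonneg_right hδε hqJ
    linarith
  obtain ⟨W, hW⟩ : ∃ W : ℕ, W = ⌊w * J⌋₊ := ⟨_, rfl⟩
  have hWJ : W ≤ J := by
    rw [hW]
    refine Nat.floor_le_of_le ?_
    nlinarith
  obtain ⟨σ, hσ⟩ : ∃ σ : ℝ, σ = 2 ^ ((p + q) * J) := ⟨_, rfl⟩
  have hσ0 : 0 < σ := by
    rw [hσ]
    exact Real.rpow_pos_of_pos (by norm_num) _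
  obtain ⟨q', hq'⟩ : ∃ q' : F.Ω → ℝ, q' = Pool.Agent.H49.Ent.cond F.p A True := ⟨_, rfl⟩
  have hq'l : IsLaw q' := by
    rw [hq']
    exact isLaw_cond F.isLaw hA
  have h0 := hq'l.nonneg
  rw [← hq'] at hc hT
  rw [← hq', ← hσ, ← hW]
  rw [← hW] at hlb
  have hvg : ∀ ω, vg w J F ω = slam F W ω := fun ω => by rw [hW]; rfl
  simp only [hvg] at hc ⊢
  have hdegK : ∀ v, (X (some κ) - G v).totalDegree ≤ K + 2 := fun v => by
    refine (MvPolynomial.totalDegree_sub _ _).trans (max_le ?_ ?_)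
    · exact (totalDegree_X _).le.trans (by omega)
    · exact (hlb.deg v).trans (by omega)
  have hdR : ∀ x, (jR F W σ κ z' G x).natDegree ≤ K + 2 := fun x => natDegree_jR hdegK x
  have hpj : ∀ (j : ℕ) (ω : F.Ω), pj F (jR F W σ κ z' G) W j ω =
      σ * (1 / 2 ^ (W + 1)) ^ j * ojet F κ j (G (z' (slam F W ω))) ω := fun j ω =>
    jR_jet hWJ ω j
  -- the jets as integers
  obtain ⟨U, hU⟩ : ∃ U : F.Ω → Fin (K + 3) → ℤ, U = fun ω (j : Fin (K + 3)) =>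
    ⌊(2 : ℝ) ^ (Nj (j : ℕ) * J) * ojet F κ (j : ℕ) (G (z' (slam F W ω))) ω⌋ := ⟨_, rfl⟩
  have hz : ∀ j : Fin (K + 3), ∃ (V₂ : Type) (z₂ : F.Ω → V₂), Cl2 (f J F) (vg a J F) A z₂ ∧
      CH q' (fun ω => U ω j) (fun ω => (u₀ ω, (z₂ ω, y J F ω))) ≤ δ * q * J := by
    intro j
    by_cases hj0 : (j : ℕ) = 0
    · obtain ⟨V₂, z₂, hz₂, h1⟩ := HVal V Cc z z' G c hcΨ u₀ hu₀
      refine ⟨V₂, z₂, hz₂, ?_⟩
      rw [← hq', ← hW] at h1
      have e1 : Nj (j : ℕ) = p + q := by rw [hj0, hNj]; exact if_pos rfl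
      have e2 : (fun ω => U ω j) = fun ω => ⌊(2 : ℝ) ^ ((p + q) * J) *
          ojet F κ 0 (G (z' (slam F W ω))) ω⌋ := by
        funext ω
        rw [hU]
        show ⌊(2 : ℝ) ^ (Nj (j : ℕ) * J) * ojet F κ (j : ℕ) (G (z' (slam F W ω))) ω⌋ = _
        rw [e1, hj0]
      rw [e2]
      exact h1
    have h1 := HF j j.2 hj0 u₀ (fun ω => U ω j) (Qu.mono (by omega) le_rfl hu₀)
      ⟨?_, V, z, z', G, ?_, fun ω _ => by rw [hU, hW]⟩
    · rw [← hq'] at h1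
      exact h1
    · have hMj : M j ≤ M' := by
        rw [hM']
        have := Finset.single_le_sum (f := M) (fun i _ => Nat.zero_le _)
          (Finset.mem_range.2 j.2)
        omega
      have hJj : Jm j ≤ J := by
        have := Finset.single_le_sum (f := Jm) (fun i _ => Nat.zero_le _)
          (Finset.mem_range.2 j.2)
        omega
      have h2 := hcnt j J hJj F I κ _ A V z z' G (by rw [← hW]; exact hlb)
      rw [← hW] at h2
      rw [hU]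
      refine h2.trans (Real.exp_le_exp.2 (mul_le_mul_of_nonneg_right ?_ hJ0))
      exact_mod_cast hMj
    · rw [← hW]
      exact (LbP.of hlb).mono (Finset.Subset.refl _) (by omega) le_rfl
  choose Vz zz hzz hCz using hz
  -- the record of the ball
  obtain ⟨Y, hY⟩ : ∃ Y : F.Ω → U₀ × ((V × (F.ζ × ℕ)) × (Vc × (∀ j, Vz j))) × γ J F, Y = fun ω =>
    (u₀ ω, ((z' (slam F W ω), (slam F W ω).2), (zc ω, fun j => zz j ω)), y J F ω) := ⟨_, rfl⟩
  have H' := H J hJ3 F A hA (jR F W σ κ z' G) (fun x : LnT F => ((z' x, x.2), c x)) Y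
  rw [← hq', ← hW] at H'
  have hYj : ∀ j : Fin (K + 3), CH q' (fun ω => U ω j) Y ≤ δ * q * J := by
    intro j
    refine le_trans (CH_mono_cond h0 fun ω ω' _ _ hh => ?_) (hCz j)
    rw [hY] at hh
    simp only [Prod.mk.injEq] at hh ⊢
    exact ⟨hh.1, congrFun hh.2.1.2.2 j, hh.2.2⟩
  have hYc : CH q' (fun ω => c (slam F W ω)) Y ≤ δ * q * J := by
    refine le_trans (CH_mono_cond h0 fun ω ω' _ _ hh => ?_) hc
    rw [hY] at hh
    simp only [Prod.mk.injEq] at hh ⊢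
    exact ⟨hh.1, hh.2.1.2.1, hh.2.2⟩
  -- the scales
  have hU0 : ∀ ω ω', U ω ⟨0, by omega⟩ = U ω' ⟨0, by omega⟩ →
      |pj F (jR F W σ κ z' G) W 0 ω - pj F (jR F W σ κ z' G) W 0 ω'| ≤ 1 := by
    intro ω ω' e
    rw [hU] at e
    have e1 : Nj 0 = p + q := by
      rw [hNj]
      exact if_pos rfl
    simp only [e1] at e
    rw [hpj, hpj]
    refine fl_scale (by positivity) ?_ (Real.rpow_pos_of_pos (by norm_num) _) e
    rw [one_mul, hσ, pow_zero, mul_one]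
  have hUj : ∀ (j : ℕ) (hj : j < K + 3), j ≠ 0 → ∀ ω ω', U ω ⟨j, hj⟩ = U ω' ⟨j, hj⟩ →
      |pj F (jR F W σ κ z' G) W j ω - pj F (jR F W σ κ z' G) W j ω'| ≤ 2 ^ (q * J) := by
    intro j hj hjk ω ω' e
    rw [hU] at e
    have e1 : Nj j = p - j * w := by
      rw [hNj]
      exact if_neg hjk
    simp only [e1] at e
    rw [hpj, hpj]
    refine fl_scale (by positivity) ?_ (Real.rpow_pos_of_pos (by norm_num) _) e
    have e2 : σ * (1 / 2 ^ (W + 1)) ^ j ≤ 2 ^ ((p + q - j * w) * J) := by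
      rw [hσ, hW]
      exact (scale_le hw0 J j).1
    refine e2.trans (le_of_eq ?_)
    rw [← Real.rpow_add (by norm_num)]
    congr 1
    ring
  have hl57 : Real.log 5 ≤ Real.log 7 := Real.log_le_log (by norm_num) (by norm_num)
  -- the steps
  have hfin := H' ⟨fun x => (hdR x).trans (by omega), ?_, ?_, ?_, ?_, ?_⟩ ?_
  · -- the end
    obtain ⟨φf, hφf⟩ := hf J F
    obtain ⟨φg, hφg⟩ := vg_mono hwa ha J F
    refine ⟨_, fun ω => ((z' (slam F W ω), (slam F W ω).2), (zc ω, fun j => zz j ω)),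
      Cl2.join ⟨?_, ?_⟩ (Cl2.join hzc (Cl2.pi hzz)), ?_⟩
    · refine ⟨fun x => (z (φf x), ((φf x).2.2, (φf x).2.1 / 2 ^ (J - W))), fun ω hω => ?_⟩
      dsimp only
      rw [← hφf ω, hlb.cls ω hω]
      rfl
    · refine ⟨fun x => (z' (φg x), (φg x).2), fun ω _ => ?_⟩
      dsimp only
      rw [← hφg ω, hvg ω]
    · obtain ⟨E, hE⟩ : ∃ E : ℝ, E = 2 ^ (ε₁ * q * J) := ⟨_, rfl⟩
      have hE1 : 1 ≤ E := by
        rw [hE]
        exact Real.one_le_rpow (by norm_num) (by positivity)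
      rw [← hE] at hfin
      obtain ⟨V₁, hV₁⟩ : ∃ V₁ : F.Ω → Fin (D + 1) → ℤ, V₁ = fun ω (j : Fin (D + 1)) =>
        ⌊(jR F W σ κ z' G (slam F W ω)).coeff j / E⌋ := ⟨_, rfl⟩
      have g1 : CH q' V₁ Y ≤ ε₁ * q * J := le_trans (CH_mono_left h0 fun ω ω' _ _ e => by
        rw [hV₁]
        exact (Prod.ext_iff.mp (Prod.ext_iff.mp e).1).2) hfin
      obtain ⟨V₂, hV₂⟩ : ∃ V₂ : F.Ω → Fin (K + 3) → ℤ, V₂ = fun ω (j : Fin (K + 3)) =>
        ⌊jr F W σ κ z' G j (slam F W ω)⌋ := ⟨_, rfl⟩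
      have g2 : CH q' V₂ (fun ω => (V₁ ω, Y ω)) ≤ (K + 3) * (Real.log 7 + ε₁ * q * J) := by
        refine (CH_pis h0 V₂ _).trans ?_
        have h1 : ∀ j ∈ (univ : Finset (Fin (K + 3))), CH q' (fun ω => V₂ ω j)
            (fun ω => (V₁ ω, Y ω)) ≤ Real.log 7 + ε₁ * q * J := by
          intro j _
          have h2 : CH q' (fun ω => V₂ ω j) (fun ω => (V₁ ω, Y ω)) ≤
              Real.log (2 * ((⌈E⌉₊ + 1 : ℕ) : ℝ) + 1) := by
            refine CH_pair hq'l _ _ fun ω ω' _ _ e => ?_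
            have e1 := congrFun (Prod.ext_iff.mp e).1 ⟨(j : ℕ), by omega⟩
            rw [hV₁] at e1
            have e2 := of_floor_div (zero_lt_one.trans_le hE1) e1
            rw [hV₂]
            exact floor_sub_le (e2.trans (Nat.le_ceil E))
          refine h2.trans ?_
          have h3 := Nat.ceil_lt_add_one (zero_le_one.trans hE1)
          have h4 : 2 * ((⌈E⌉₊ + 1 : ℕ) : ℝ) + 1 ≤ 7 * E := by
            push_cast
            linarith
          have h5 := Real.log_le_log (by positivity) h4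
          rw [Real.log_mul (by norm_num) (by positivity)] at h5
          have h6 : Real.log E ≤ ε₁ * q * J := by
            rw [hE, Real.log_rpow (by norm_num)]
            have h7 : Real.log 2 ≤ 1 := by
              have := Real.log_two_lt_d9
              linarith
            have h8 : 0 ≤ ε₁ * q * J := by positivity
            nlinarith
          linarith
        refine (Finset.sum_le_sum h1).trans (le_of_eq ?_)
        rw [Finset.sum_const, Finset.card_univ, Fintype.card_fin, nsmul_eq_mul]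
        push_cast
        ring
      have g3 := CH_le_add h0 V₂ V₁ Y
      have g4 := CH_subadd h0 (fun ω => c (slam F W ω)) V₂ Y
      have g5 : (K + 4) * (ε₁ * q * J) = ε / 2 * (q * J) := by
        rw [hε₁]
        field_simp
      rw [hY] at g1 g2 g3 g4
      refine le_trans (CH_mono_left h0 fun ω ω' _ _ e => ?_) (g4.trans ?_)
      · obtain ⟨e1, e2⟩ := Prod.ext_iff.mp e
        obtain ⟨e3, e4⟩ := Prod.ext_iff.mp e1
        have e5 := (Prod.ext_iff.mp (Prod.ext_iff.mp (Prod.ext_iff.mp e2).2).1).1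
        rw [hV₂] at e4
        exact Prod.ext e5 (Prod.ext e3 e4)
      · rw [hY] at hYc
        linarith
  · -- the time
    rw [← hq']
    exact hT
  · -- the key
    intro ω ω' _ _ e
    rw [hY] at e
    simp only [Prod.mk.injEq] at e
    obtain ⟨φ, hφ⟩ := hy J F
    refine ⟨?_, (Prod.ext_iff.mp e.2.1.1.2).1⟩
    rw [hφ, hφ, e.2.2]
  · -- the context
    rw [← hq']
    refine le_trans (le_of_eq ?_) (hYc.trans (hd1.trans ?_))
    · refine CH_congr h0 ?_ ?_ (fun _ _ _ _ e => e) (fun _ _ _ _ e => e)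
      · intro ω ω' _ _ e
        simp only [Prod.mk.injEq] at e ⊢
        exact e.1.2
      · intro ω ω' _ _ e
        have e1 := (Prod.ext_iff.mp e).2
        rw [hY] at e1
        simp only [Prod.mk.injEq] at e e1 ⊢
        exact ⟨⟨e1.2.1.1.1, e1.2.1.1.2⟩, e.1⟩
    · have : 0 ≤ δ₁ / 2 * (q * J) := by positivity
      linarith
  · -- the value
    rw [← hq']
    have s1 := CH_le_add h0 (fun ω => ⌊pj F (jR F W σ κ z' G) W 0 ω⌋)
      (fun ω => U ω ⟨0, by omega⟩) Y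
    have s2 := CH_pair (D := 1 + 1) hq'l (fun ω => ⌊pj F (jR F W σ κ z' G) W 0 ω⌋)
      (fun ω => (U ω ⟨0, by omega⟩, Y ω)) (fun ω ω' _ _ e => by
        have h3 := hU0 ω ω' (Prod.ext_iff.mp e).1
        exact floor_sub_le (by push_cast; exact h3))
    have s3 := hYj ⟨0, by omega⟩
    have s4 : Real.log (2 * ((1 + 1 : ℕ) : ℝ) + 1) = Real.log 5 := by norm_num
    rw [s4] at s2
    linarith
  · -- the natural jets
    intro j hjD hjk
    have hj : j < K + 3 := by omega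
    rw [← hq']
    have hqJp : (0 : ℝ) < 2 ^ (q * J) := Real.rpow_pos_of_pos (by norm_num) _
    have s1 := CH_le_add h0 (fun ω => ⌊pj F (jR F W σ κ z' G) W j ω / 2 ^ (q * J)⌋)
      (fun ω => U ω ⟨j, hj⟩) Y
    have s2 := CH_pair (D := 1 + 1) hq'l (fun ω => ⌊pj F (jR F W σ κ z' G) W j ω / 2 ^ (q * J)⌋)
      (fun ω => (U ω ⟨j, hj⟩, Y ω)) (fun ω ω' _ _ e => by
        have h3 := hUj j hj hjk ω ω' (Prod.ext_iff.mp e).1
        refine floor_sub_le ?_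
        rw [← sub_div, abs_div, abs_of_pos hqJp, div_le_iff₀ hqJp]
        push_cast
        linarith)
    have s3 := hYj ⟨j, hj⟩
    have s4 : Real.log (2 * ((1 + 1 : ℕ) : ℝ) + 1) = Real.log 5 := by norm_num
    rw [s4] at s2
    linarith
  · -- the rows
    intro B hBA hPB i j hij hj
    have hPB0 : 0 < Pe F.p B := lt_of_lt_of_le (by positivity) hPB
    have hpart : Pe F.p A ≤ 1 / c₀ * Pe F.p B := by
      rw [one_div, ← div_eq_inv_mul, le_div_iff₀ hc₀]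
      linarith
    have hBl : IsLaw (Pool.Agent.H49.Ent.cond F.p B True) := isLaw_cond F.isLaw hPB0
    have h1 := HN i (by omega) j (by omega) B hBA hpart hij hj V Cc z z' G c
      (hΨ _ _ _ _ _ _ _ _ _ _ hBA hcΨ)
    rw [← hW] at h1
    have e0 : ∀ ω, pj F (jR F W σ κ z' G) W 0 ω = σ * ojet F κ 0 (G (z' (slam F W ω))) ω := by
      intro ω
      rw [hpj, pow_zero, mul_one]
    have e1 : ∀ (x : ℝ) ω, pj F (jR F W σ κ z' G) W 0 ω / 2 ^ (x * J) =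
        (2 : ℝ) ^ ((p + (q - x)) * J) * ojet F κ 0 (G (z' (slam F W ω))) ω := by
      intro x ω
      rw [e0, hσ]
      have e2 : (2 : ℝ) ^ ((p + q) * J) = 2 ^ (x * J) * 2 ^ ((p + (q - x)) * J) := by
        rw [← Real.rpow_add (by norm_num)]
        congr 1
        ring
      have e3 : (0 : ℝ) < 2 ^ (x * J) := Real.rpow_pos_of_pos (by norm_num) _
      rw [e2]
      field_simp
    simp only [e1]
    refine (CH_mono_cond hBl.nonneg fun ω ω' _ _ e => ?_).trans (h1.trans ?_)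
    · simp only [Prod.mk.injEq] at e ⊢
      exact ⟨e.1, e.2.1.1.1, e.2.1.2, e.2.2⟩
    · refine mul_le_mul_of_nonneg_right ?_ hJ0
      have h2 : δ * q ≤ δ₁ * q := by
        refine mul_le_mul_of_nonneg_right ?_ hq.le
        linarith
      have e4 : (q - q * i / N₀) - (q - q * j / N₀) = q * j / N₀ - q * i / N₀ := by ring
      rw [e4]
      linarith

end Pool.AJX
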