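import Pool.Agent.H71.AJX.Ctx
import Pool.Agent.H71.AJX.Rbx

/-!
# All jets over a nested chain, labels with gradient exponents
-/

set_option autoImplicit false

namespace Pool.AJX

open Finset Real MvPolynomial
open Pool.Agent.H49.Ent Pool.Agent.H32.Dense Pool.STK Pool.KA Pool.KSAT Pool.K2S Pool.PB Pool.GEN
open Pool.S6C Pool.RCD Pool.LA91 Pool.OWN68 Pool.CHT Pool.AJW
open Pool.GRD (LbP)
open Pool.UNJ (ceI Tub)

variable {m : ℕ}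

/-- **Few bits for the labels of a chain** of degree `≤ K` and accuracy `e`, relative to a
quantity. -/
def FwX (S : PCl m) {α β γ : ∀ J : ℕ, Fam m J → Type} {U : Type}
    (f : ∀ (J : ℕ) (F : Fam m J), F.Ω → α J F)
    (g : ∀ (J : ℕ) (F : Fam m J), F.Ω → β J F) (y : ∀ (J : ℕ) (F : Fam m J), F.Ω → γ J F)
    (Q : Qt m U) (c : ℕ → Fin m) (r₀ R K : ℕ) (E : ℕ → ℝ) (w : ℝ) (rd p : ℕ → ℝ)
    {τ : ∀ J : ℕ, Fam m J → Type → Type}
    (X : ∀ (J : ℕ) (F : Fam m J) (V : Type), (LnT F → V) →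
      (V → ℕ → MvPolynomial (Option (Fin m)) ℝ) → F.Ω → τ J F V) (e δ : ℝ) : Prop :=
  ∀ K₀ : ℕ, Bas S (fun J F A => ∀ (V : Type) (z : PtT F → V) (z' : LnT F → V)
    (gg : V → ℕ → MvPolynomial (Option (Fin m)) ℝ), LbX F c r₀ R K e E w rd p A z z' gg →
    ∀ u₀ : F.Ω → U, Q.P K₀ e J F A u₀ →
    ∃ (V₁ : Type) (z₁ : F.Ω → V₁), Cl2 (f J F) (g J F) A z₁ ∧
      CH (Pool.Agent.H49.Ent.cond F.p A True) (X J F V z' gg)
        (fun ω => (u₀ ω, (z₁ ω, y J F ω))) ≤ δ * J)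

section mono

variable {S : PCl m} {C₀ : ℝ} {α β γ : ∀ J : ℕ, Fam m J → Type} {U : Type}
  {f : ∀ (J : ℕ) (F : Fam m J), F.Ω → α J F}
  {g : ∀ (J : ℕ) (F : Fam m J), F.Ω → β J F} {y : ∀ (J : ℕ) (F : Fam m J), F.Ω → γ J F}
  {Q : Qt m U} {c : ℕ → Fin m} {r₀ R R' K : ℕ} {w : ℝ} {E rd p : ℕ → ℝ}
  {τ τ' : ∀ J : ℕ, Fam m J → Type → Type}
  {X : ∀ (J : ℕ) (F : Fam m J) (V : Type), (LnT F → V) →
      (V → ℕ → MvPolynomial (Option (Fin m)) ℝ) → F.Ω → τ J F V}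
  {X' : ∀ (J : ℕ) (F : Fam m J) (V : Type), (LnT F → V) →
      (V → ℕ → MvPolynomial (Option (Fin m)) ℝ) → F.Ω → τ' J F V} {e δ δ' η : ℝ}

theorem FwX.mono (h : FwX S f g y Q c r₀ R K E w rd p X e δ) (hR : R ≤ R') (hδ : δ ≤ δ') :
    FwX S f g y Q c r₀ R' K E w rd p X e δ' := by
  intro K₀
  refine Bas.mono 0 (h K₀) ?_
  rintro J - F A H V z z' gg hlb u₀ hu₀
  obtain ⟨V₁, z₁, hz, h1⟩ := H V z z' gg (fun i a b => hlb i a (b.trans_le hR)) u₀ hu₀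
  exact ⟨V₁, z₁, hz, h1.trans (mul_le_mul_of_nonneg_right hδ (Nat.cast_nonneg J))⟩

/-- A function computed from a few-bits function, with the time, up to `η J` bits. -/
theorem FwX.map (htm : TmC S C₀) (h : FwX S f g y Q c r₀ R K E w rd p X e δ)
    (hy : ∀ (J : ℕ) (F : Fam m J), ∃ φ : γ J F → ℕ, ∀ ω, F.T ω = φ (y J F ω))
    (hX : Bas S (fun J F A => ∀ (V : Type) (z : PtT F → V) (z' : LnT F → V)
      (gg : V → ℕ → MvPolynomial (Option (Fin m)) ℝ), LbX F c r₀ R K e E w rd p A z z' gg →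
      ∀ (T : Type) (Y : F.Ω → T), (∀ ω ω', Y ω = Y ω' → F.T ω = F.T ω') →
      CH (Pool.Agent.H49.Ent.cond F.p A True) (X' J F V z' gg)
        (fun ω => (X J F V z' gg ω, Y ω)) ≤ η * J)) :
    FwX S f g y Q c r₀ R K E w rd p (fun J F V z' gg ω => (X J F V z' gg ω, X' J F V z' gg ω)) e
      (δ + η) := by
  intro K₀
  refine Bas.mono 0 ((h K₀).and (hX.and (Pool.GRW.tmc_bas htm one_pos))) ?_
  rintro J - F A ⟨H, HX, hA, -⟩ V z z' gg hlb u₀ hu₀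
  obtain ⟨V₁, z₁, hz, h1⟩ := H V z z' gg hlb u₀ hu₀
  have h0 := (isLaw_cond F.isLaw hA).nonneg
  obtain ⟨φ, hφ⟩ := hy J F
  have h2 := HX V z z' gg hlb _ (fun ω => (u₀ ω, (z₁ ω, y J F ω))) (fun ω ω' e => by
    simp only [Prod.mk.injEq] at e
    rw [hφ, hφ, e.2.2])
  refine ⟨V₁, z₁, hz, ?_⟩
  have h3 := CH_le_add h0 (fun ω => (X J F V z' gg ω, X' J F V z' gg ω)) (X J F V z' gg)
    (fun ω => (u₀ ω, (z₁ ω, y J F ω)))
  have h4 : CH (Pool.Agent.H49.Ent.cond F.p A True)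
      (fun ω => (X J F V z' gg ω, X' J F V z' gg ω))
      (fun ω => (X J F V z' gg ω, (u₀ ω, (z₁ ω, y J F ω)))) ≤
      CH (Pool.Agent.H49.Ent.cond F.p A True) (X' J F V z' gg)
      (fun ω => (X J F V z' gg ω, (u₀ ω, (z₁ ω, y J F ω)))) :=
    CH_mono_left h0 fun ω ω' _ _ e => by
      simp only [Prod.mk.injEq] at e ⊢
      exact ⟨e.2.1, e.1⟩
  have h5 : (δ + η) * J = δ * J + η * J := by ring
  linarith

end mono

/-- **All jets of the own path over a nested chain**, for the labels of one family. -/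
theorem path_nsb (K : ℕ) {h : ℝ} (hh : 0 < h) (hh1 : h ≤ 1) {ε : ℝ}
    (hε : 0 < ε) : ∃ δ : ℝ, 0 < δ ∧ ∀ {m : ℕ} {S : PCl m} {C₀ : ℝ} (_ : TmC S C₀)
    {c : ℕ → Fin m} {r₀ r : ℕ} (_ : r₀ ≤ r) {w a q lam e₁ : ℝ} {E rd p n : ℕ → ℝ}
    (_ : 0 ≤ w) (_ : w ≤ a) (_ : a ≤ 1) (_ : 0 < q) (_ : w + q ≤ 1)
    (_ : ∀ i, r₀ ≤ i → i ≤ r → 0 ≤ rd i) (_ : E r ≤ 1)
    {U₀ : Type} {Qu : Qt m U₀} {α γ : ∀ J : ℕ, Fam m J → Type}
    {f : ∀ (J : ℕ) (F : Fam m J), F.Ω → α J F} {y : ∀ (J : ℕ) (F : Fam m J), F.Ω → γ J F}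
    (_ : ∀ (J : ℕ) (F : Fam m J), ∃ φ : α J F → PtT F, ∀ ω, ptr F J ω = φ (f J F ω))
    (_ : ∀ (J : ℕ) (F : Fam m J), ∃ φ : γ J F → ℕ, ∀ ω, F.T ω = φ (y J F ω)) (_ : 0 < e₁),
    (∀ e : ℝ, 0 < e → e ≤ e₁ →
      FwX S f (vg a) y Qu c r₀ (r + 1) K E w rd p (ctx c r₀ r K w lam n) e (δ * q)) →
    (∀ e : ℝ, 0 < e → e ≤ e₁ →
      FwX S f (vg a) y Qu c r₀ (r + 1) K E w rd p (hgf c r w (p r + q)) e (δ * q)) →
    (∀ q' : ℝ, 0 ≤ q' → q' ≤ q → NfX S c r₀ r E w q' h (δ * q / 2) (w + lam) rd p n) →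
    ∃ e₀ : ℝ, 0 < e₀ ∧ e₀ ≤ e₁ ∧ ∀ e : ℝ, 0 < e → e ≤ e₀ →
      FwX S f (vg a) y Qu c r₀ (r + 1) K E w rd p
        (τ := fun _ F V => (V × (F.ζ × ℕ)) × (((Fin m → ℤ × ℤ) × (ℕ → ℕ → ℤ)) × (Fin (K + 3) → ℤ)))
        (fun J F V z' g ω => ((z' (vg w J F ω), (vg w J F ω).2),
          (ctx c r₀ r K w lam n J F V z' g ω, pth c r K w (p r + q) J F V z' g ω))) e (ε * q) := by
  classical
  obtain ⟨δ, hδ, N₀, hN₀, H⟩ := path_rb K hh hh1 hε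
  refine ⟨δ, hδ, ?_⟩
  intro m S C₀ htm c r₀ r hr w a q lam e₁ E rd p n hw0 hwa ha hq hwq hrd hE U₀ Qu α γ f y hf hyT
    he₁ hctx hval hnf
  have hN0 : (0 : ℝ) < N₀ := by exact_mod_cast hN₀
  have hw1 : w < 1 := by linarith
  have hδq : 0 < δ * q := by positivity
  have hqi : ∀ i ≤ N₀, 0 ≤ q - q * i / N₀ ∧ q - q * i / N₀ ≤ q := by
    intro i hi
    have h1 : (i : ℝ) ≤ N₀ := by exact_mod_cast hi
    have h2 : q * i / N₀ ≤ q := by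
      rw [div_le_iff₀ hN0]
      exact mul_le_mul_of_nonneg_left h1 hq.le
    have h3 : 0 ≤ q * i / N₀ := by positivity
    constructor <;> linarith
  -- the rows
  obtain ⟨e₂, he₂, hnf2⟩ := min_fin (N₀ + 1) (P := fun i e₀ => ∀ e : ℝ, 0 < e → e ≤ e₀ →
    ∀ K : ℕ, ∀ x : ℝ, 0 ≤ x → x ≤ q - q * i / N₀ →
    Bas S (fun J F A => ∀ (V : Type) (z : PtT F → V) (z' : LnT F → V)
      (g : V → ℕ → MvPolynomial (Option (Fin m)) ℝ), LbX F c r₀ (r + 1) K e E w rd p A z z' g →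
      CH (Pool.Agent.H49.Ent.cond F.p A True)
        (fun ω => ⌊(2 : ℝ) ^ ((p r + (q - q * i / N₀)) * J) *
          hgt F (c r) z' ⌊w * J⌋₊ (fun v => g v r) ω⌋)
        (fun ω => (⌊(2 : ℝ) ^ ((p r + x) * J) *
          hgt F (c r) z' ⌊w * J⌋₊ (fun v => g v r) ω⌋,
          (z' (slam F ⌊w * J⌋₊ ω), (hts F c r₀ r z' ⌊w * J⌋₊ g n ω,
            (bI ((range r₀).image c) (w + lam) J F ω, F.W ω))))) ≤
        ((1 - h) * ((q - q * i / N₀) - x) * Real.log 2 + δ * q / 2) * J))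
    (fun i e e' h1 h2 h3 e'' h4 h5 => h1 e'' h4 (h5.trans h3)) (fun i hi => by
      obtain ⟨h1, h2⟩ := hqi i (by omega)
      exact hnf _ h1 h2)
  -- the natural jets
  obtain ⟨e₃, he₃, hnat⟩ := min_fin (K + 3) (P := fun j e => F1 S f (vg a) y Qu
    (qJet m ((range r).image c) (c r) j w (p r) (p r - j * w)) e (δ * q))
    (fun j e e' h1 _ h3 => h1.mono h3 le_rfl) (fun j _ => F1.of_few0 htm (few0_jet htm hw0 hw1
      (by linarith) f (vg a) y) hδq)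
  refine ⟨min (min e₁ e₂) e₃, lt_min (lt_min he₁ he₂) he₃,
    (min_le_left _ _).trans (min_le_left _ _), fun e he hle K₀ => ?_⟩
  have h1e : e ≤ e₁ := hle.trans ((min_le_left _ _).trans (min_le_left _ _))
  have h2e : e ≤ e₂ := hle.trans ((min_le_left _ _).trans (min_le_right _ _))
  have h3e : e ≤ e₃ := hle.trans (min_le_right _ _)
  have key := H htm (I := (range r).image c) (κ := c r) (w := w) (a := a) (p := p r) (q := q)
    (r := rd r) hw0 hwa ha hq hwq (hrd r hr le_rfl) (Qu := Qu) hf hyT (e' := e + 1) he (by linarith)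
    (fun J F A V C z z' G cc => ∃ g : V → ℕ → MvPolynomial (Option (Fin m)) ℝ,
      LbX F c r₀ (r + 1) K e E w rd p A z z' g ∧ G = (fun v => g v r) ∧
      ∃ (φ : C → (Fin m → ℤ × ℤ) × (ℕ → ℕ → ℤ)) (ψ : (Fin m → ℤ × ℤ) × (ℕ → ℕ → ℤ) → C),
        (∀ x, ctxN F c r₀ r ⌊w * J⌋₊ ⌊(w + lam) * J⌋₊ K z' g n x = φ (cc x)) ∧
        ∀ x, cc x = ψ (ctxN F c r₀ r ⌊w * J⌋₊ ⌊(w + lam) * J⌋₊ K z' g n x))
    (by
      rintro J F A V C z z' G cc ⟨g, hlb, rfl, -⟩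
      exact hlb.wk hr (Nat.lt_succ_self r) hE)
    (by
      rintro J F A B V C z z' G cc hBA ⟨g, hlb, hG, hcc⟩
      exact ⟨g, hlb.sub hBA, hG, hcc⟩) ?_ ?_ ?_
      (fun j hj _ => (hnat j hj).mono h3e le_rfl) K₀
  · refine Bas.mono 0 key ?_
    intro J _ F A h1 V z z' g hlb u₀ hu₀
    exact h1 V _ z z' (fun v => g v r)
      (fun x => ctxN F c r₀ r ⌊w * J⌋₊ ⌊(w + lam) * J⌋₊ K z' g n x)
      ⟨g, hlb, rfl, fun x => x, fun x => x, fun _ => rfl, fun _ => rfl⟩ u₀ hu₀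
  · -- the context
    intro K₁
    refine Bas.mono 0 ((hctx e he h1e K₁).and (Pool.GRW.tmc_bas htm one_pos)) ?_
    rintro J - F A ⟨h1, hA, -⟩ V C z z' G cc ⟨g, hlb, hG, φ, ψ, hφ, hψ⟩ u₀ hu₀
    obtain ⟨V₁, z₁, hz₁, h2⟩ := h1 V z z' g hlb u₀ hu₀
    refine ⟨V₁, z₁, hz₁, le_trans (CH_mono_left (isLaw_cond F.isLaw hA).nonneg
      fun ω ω' _ _ e => ?_) h2⟩
    show cc (vg w J F ω) = cc (vg w J F ω')
    rw [hψ, hψ]
    exact congrArg ψ (Prod.ext_iff.mp e).1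
  · -- the rows
    intro i hi x hx0 hxq
    have l7 : 0 ≤ Real.log 7 := Real.log_nonneg (by norm_num)
    have lK : 0 ≤ Real.log (4 * ((K : ℝ) + 3) + 3) := Real.log_nonneg (by
      have : (0 : ℝ) ≤ K := Nat.cast_nonneg K
      linarith)
    obtain ⟨J₂, hJ₂⟩ := exists_nat_ge ((m * Real.log 7 + r * Real.log (4 * (K + 3) + 3)) /
      (δ * q / 2))
    obtain ⟨qi, hqi'⟩ : ∃ qi : ℝ, qi = q - q * i / N₀ := ⟨_, rfl⟩
    have hnf3 := hnf2 i (by omega) e he h2e K x hx0 hxq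
    rw [← hqi'] at hnf3 ⊢
    refine Bas.mono J₂ (hnf3.and (Pool.GRW.tmc_bas htm one_pos)) ?_
    rintro J hJ F A ⟨h1, hA, -⟩ V C z z' G cc ⟨g, hlb, rfl, φ, ψ, hφ, hψ⟩
    have hJ2 : (J₂ : ℝ) ≤ J := by exact_mod_cast hJ
    have f1 : m * Real.log 7 + r * Real.log (4 * (K + 3) + 3) ≤ δ * q / 2 * J := by
      have := hJ₂.trans hJ2
      rw [div_le_iff₀ (by positivity)] at this
      linarith
    have h2 := h1 V z z' g hlb
    obtain ⟨q', hq'⟩ : ∃ q' : F.Ω → ℝ, q' = Pool.Agent.H49.Ent.cond F.p A True := ⟨_, rfl⟩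
    have hq'l : IsLaw q' := by
      rw [hq']
      exact isLaw_cond F.isLaw hA
    have h0 := hq'l.nonneg
    rw [← hq'] at h2 ⊢
    have hWJ : ⌊w * J⌋₊ ≤ J := floor_le (hwa.trans ha) J
    obtain ⟨Hn, hHn⟩ : ∃ Hn : F.Ω → ℤ, Hn = fun ω => ⌊(2 : ℝ) ^ ((p r + qi) * J) *
      hgt F (c r) z' ⌊w * J⌋₊ (fun v => g v r) ω⌋ := ⟨_, rfl⟩
    obtain ⟨Rx, hRx⟩ : ∃ Rx : F.Ω → ℤ, Rx = fun ω => ⌊(2 : ℝ) ^ ((p r + x) * J) *
      hgt F (c r) z' ⌊w * J⌋₊ (fun v => g v r) ω⌋ := ⟨_, rfl⟩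
    obtain ⟨Y, hY⟩ : ∃ Y : F.Ω → ℤ × (V × (C × (ℕ × F.ζ))), Y = fun ω =>
      (Rx ω, (z' (slam F ⌊w * J⌋₊ ω), (cc (slam F ⌊w * J⌋₊ ω), F.W ω))) := ⟨_, rfl⟩
    obtain ⟨ht, hht⟩ : ∃ ht : F.Ω → ℕ → ℤ, ht = fun ω => hts F c r₀ r z' ⌊w * J⌋₊ g n ω :=
      ⟨_, rfl⟩
    obtain ⟨B, hB⟩ : ∃ B : F.Ω → Fin m → ℤ, B = bI ((range r₀).image c) (w + lam) J F := ⟨_, rfl⟩
    have s1 := CH_le_add h0 Hn (fun ω => (ht ω, B ω)) Y
    have s2 := CH_subadd h0 ht B Y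
    have s3 : CH q' ht Y ≤ r * Real.log (4 * (K + 3) + 3) := by
      rw [hht]
      refine hts_few hWJ (fun l a b v => (hlb l a (by omega)).deg v) hq'l Y
        (fun ω => φ (cc (slam F ⌊w * J⌋₊ ω))) (Un := ⌊(w + lam) * J⌋₊)
        (fun ω => (hφ _).symm) fun ω ω' e => ?_
      rw [hY] at e
      simp only [Prod.mk.injEq] at e
      obtain ⟨-, -, e3, e4⟩ := e
      exact ⟨(Prod.ext_iff.mp e4).1, congrArg φ e3⟩
    have s4 : CH q' B Y ≤ m * Real.log 7 := by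
      rw [hB]
      refine le_trans (CH_mono_cond h0 fun ω ω' _ _ e => ?_)
        (cV0_pos hq'l ((range r₀).image c) hWJ ⌊(w + lam) * J⌋₊)
      rw [hY] at e
      simp only [Prod.mk.injEq] at e ⊢
      obtain ⟨-, -, e3, e4⟩ := e
      have e5 := hφ (slam F ⌊w * J⌋₊ ω)
      have e6 := hφ (slam F ⌊w * J⌋₊ ω')
      rw [e3, ← e6] at e5
      exact ⟨congrArg Prod.fst e5, e4⟩
    have s5 : CH q' Hn (fun ω => ((ht ω, B ω), Y ω)) ≤
        ((1 - h) * (qi - x) * Real.log 2 + δ * q / 2) * J := by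
      refine le_trans (CH_mono_cond h0 fun ω ω' _ _ e => ?_) (hHn ▸ h2)
      rw [hY] at e
      simp only [Prod.mk.injEq] at e ⊢
      obtain ⟨⟨e1, e2⟩, e3, e4, e5, e6⟩ := e
      rw [hRx] at e3
      rw [hht] at e1
      rw [hB] at e2
      exact ⟨e3, e4, e1, e2, e6⟩
    have s6 : CH q' Hn Y ≤ ((1 - h) * (qi - x) * Real.log 2 + δ * q) * J := by
      have e7 : ((1 - h) * (qi - x) * Real.log 2 + δ * q) * J =
        ((1 - h) * (qi - x) * Real.log 2 + δ * q / 2) * J + δ * q / 2 * J := by ring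
      rw [e7]
      linarith
    rw [hHn, hY, hRx] at s6
    exact s6
  · -- the value
    intro K₁
    refine Bas.mono 0 (hval e he h1e K₁) ?_
    rintro J - F A h1 V C z z' G cc ⟨g, hlb, rfl, -⟩ u₀ hu₀
    exact h1 V z z' g hlb u₀ hu₀

/-! ### The context -/

section ctx

variable {S : PCl m} {C₀ : ℝ} {α γ : ∀ J : ℕ, Fam m J → Type} {U : Type}
  {f : ∀ (J : ℕ) (F : Fam m J), F.Ω → α J F} {y : ∀ (J : ℕ) (F : Fam m J), F.Ω → γ J F}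
  {Q : Qt m U} {c : ℕ → Fin m} {r₀ r R K : ℕ} {w a lam : ℝ} {E rd p n : ℕ → ℝ} {e δ : ℝ}

/-- **The context of the empty chain** is few bits, if `y` knows the path of the base. -/
theorem ctx_base (htm : TmC S C₀) (hw0 : 0 ≤ w) (hwa : w ≤ a) (ha : a ≤ 1) (hlam : 0 ≤ lam)
    (he : 0 < e) (hy : Kn ((range r₀).image c) (w + lam) lam y) (hδ : 0 < δ) :
    FwX S f (vg a) y Q c r₀ R K E w rd p (ctx c r₀ r₀ K w lam n) e δ := by
  intro K₀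
  by_cases hR : r₀ ≤ R
  · refine ctxK_few (δ₁ := 0) (η := fun _ _ => 0) htm (fun i a b => absurd b (by omega))
      hw0 hwa ha hlam he (fun i a b => absurd b (by omega)) hy K (by simp)
      (fun l a b => absurd b (by omega)) hδ K₀ R hR
  · have h1 := ctxK_few (S := S) (f := f) (Q := Q) (δ₁ := 0) (E := E) (rd := rd) (p := p) (n := n)
      (η := fun _ _ => 0) htm (fun i a b => absurd b (by omega : ¬ i < r₀)) hw0 hwa ha hlam he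
      (fun i a b => absurd b (by omega)) hy K (by simp)
      (fun l a b => absurd b (by omega)) hδ K₀ r₀ le_rfl
    refine Bas.mono 0 h1 ?_
    rintro J - F A H V z z' gg - u₀ hu₀
    exact H V z z' gg (fun i a b => absurd b (by omega)) u₀ hu₀

/-- **The context of one more coordinate**, from its own path. -/
theorem ctx_succ (htm : TmC S C₀) (hr : r₀ ≤ r)
    {τ : ∀ J : ℕ, Fam m J → Type → Type} {X : ∀ (J : ℕ) (F : Fam m J) (V : Type), (LnT F → V) →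
      (V → ℕ → MvPolynomial (Option (Fin m)) ℝ) → F.Ω → τ J F V}
    (h : FwX S f (vg a) y Q c r₀ R K E w rd p
      (τ := fun J F V => τ J F V × (((Fin m → ℤ × ℤ) × (ℕ → ℕ → ℤ)) × (Fin (K + 3) → ℤ)))
      (fun J F V z' g ω => (X J F V z' g ω,
        (ctx c r₀ r K w lam n J F V z' g ω, pth c r K w (n r) J F V z' g ω))) e δ) :
    FwX S f (vg a) y Q c r₀ R K E w rd p (ctx c r₀ (r + 1) K w lam n) e δ := by
  intro K₀
  refine Bas.mono 0 ((h K₀).and (Pool.GRW.tmc_bas htm one_pos)) ?_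
  rintro J - F A ⟨H, hA, -⟩ V z z' gg hlb u₀ hu₀
  obtain ⟨V₁, z₁, hz, h1⟩ := H V z z' gg hlb u₀ hu₀
  refine ⟨V₁, z₁, hz, le_trans (CH_mono_left (isLaw_cond F.isLaw hA).nonneg
    fun ω ω' _ _ hh => ?_) h1⟩
  have h2 := (Prod.ext_iff.mp hh).1
  simp only [Prod.mk.injEq] at h2
  obtain ⟨-, h3, h4⟩ := h2
  unfold ctx ctxN at h3 ⊢
  obtain ⟨h5, h6⟩ := Prod.ext_iff.mp h3
  refine Prod.ext h5 ?_
  funext l j
  dsimp only
  by_cases hl : (r₀ ≤ l ∧ l < r + 1) ∧ j < K + 3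
  · rw [if_pos hl, if_pos hl]
    rcases Nat.lt_or_ge l r with h7 | h7
    · have h8 := congrFun (congrFun h6 l) j
      dsimp only at h8
      rw [if_pos ⟨⟨hl.1.1, h7⟩, hl.2⟩, if_pos ⟨⟨hl.1.1, h7⟩, hl.2⟩] at h8
      exact h8
    · obtain rfl : l = r := by omega
      exact congrFun h4 ⟨j, hl.2⟩
  · rw [if_neg hl, if_neg hl]

end ctx

end Pool.AJX
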