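import Pool.Agent.H71.AVG.Pf2

/-!
# Labels of a chain with gradient exponents, and the rows

`LbX`: labels of a chain with a common code; the place `i` has the gradient exponent `E i` (fixed), all
errors are `e`. `FwX`: few bits for such labels. `NfX`, `nfx_of`: the rows of the own height.
-/

set_option autoImplicit false

namespace Pool.AJX

open Finset Real MvPolynomial
open Pool.Agent.H49.Ent Pool.Agent.H32.Dense Pool.STK Pool.KA Pool.KSAT Pool.K2S Pool.PB Pool.GEN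
open Pool.S6C Pool.RCD Pool.LA91 Pool.OWN68 Pool.CHT
open Pool.GRD (LbP Pb_mono_pos)
open Pool.UNJ (ceI Tub)
open Pool.BFL (Pb)

variable {m J : ℕ}

/-- **Labels of a chain**, with a common code and gradient exponents. -/
def LbX (F : Fam m J) (c : ℕ → Fin m) (r₀ n K : ℕ) (e : ℝ) (E : ℕ → ℝ) (w : ℝ) (rd p : ℕ → ℝ)
    (A : F.Ω → Prop) {V : Type} (z : PtT F → V) (z' : LnT F → V)
    (g : V → ℕ → MvPolynomial (Option (Fin m)) ℝ) : Prop :=
  ∀ i, r₀ ≤ i → i < n → LbOK F ((range i).image c) (c i) K ⌊(E i + e) * J⌋₊ J ⌊w * J⌋₊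
    ⌊(rd i + e) * J⌋₊ ⌊(p i - e) * J⌋₊ A z z' (fun v => g v i)

theorem LbX.sub {F : Fam m J} {c : ℕ → Fin m} {r₀ n K : ℕ} {e w : ℝ} {E rd p : ℕ → ℝ}
    {A B : F.Ω → Prop} {V : Type} {z : PtT F → V} {z' : LnT F → V}
    {g : V → ℕ → MvPolynomial (Option (Fin m)) ℝ} (h : LbX F c r₀ n K e E w rd p A z z' g)
    (hB : Sub B A) : LbX F c r₀ n K e E w rd p B z z' g := fun i a b => (h i a b).sub hB

/-- A label with a larger exponent. -/
theorem LbX.wk {F : Fam m J} {c : ℕ → Fin m} {r₀ n K : ℕ} {e w : ℝ} {E rd p : ℕ → ℝ}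
    {A : F.Ω → Prop} {V : Type} {z : PtT F → V} {z' : LnT F → V}
    {g : V → ℕ → MvPolynomial (Option (Fin m)) ℝ} (h : LbX F c r₀ n K e E w rd p A z z' g)
    {i : ℕ} (h0 : r₀ ≤ i) (h1 : i < n) (hE : E i ≤ 1) :
    LbOK F ((range i).image c) (c i) K ⌊(e + 1) * J⌋₊ J ⌊w * J⌋₊
      ⌊(rd i + (e + 1)) * J⌋₊ ⌊(p i - e) * J⌋₊ A z z' (fun v => g v i) := by
  have hJ0 : (0 : ℝ) ≤ J := Nat.cast_nonneg J
  exact (h i h0 h1).mono (Finset.Subset.refl _) le_rfl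
    (Nat.floor_le_floor (mul_le_mul_of_nonneg_right (by linarith) hJ0))
    (Nat.floor_le_floor (mul_le_mul_of_nonneg_right (by linarith) hJ0)) le_rfl

/-- The values of the heights as a quantity. -/
theorem qJets_htx {F : Fam m J} {c : ℕ → Fin m} {r₀ r K M : ℕ} {e w : ℝ} {E rd p n : ℕ → ℝ}
    {A : F.Ω → Prop} {V : Type} {z : PtT F → V} {z' : LnT F → V}
    {g : V → ℕ → MvPolynomial (Option (Fin m)) ℝ} {R : ℕ} (hR : r ≤ R)
    (hlb : LbX F c r₀ R K e E w rd p A z z' g)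
    (hcnt : ∀ i, r₀ ≤ i → i < r → (cnt F.p (fun ω => ⌊(2 : ℝ) ^ (n i * J) *
        ojet F (c i) 0 (g (z' (slam F ⌊w * J⌋₊ ω)) i) ω⌋) A : ℝ) ≤ Real.exp (M * J)) :
    (qJets m c r₀ r 0 (fun _ _ => w) (fun l _ => p l) (fun l _ => n l)).P (max K M) e J F A
      (fun ω i j' => if j' = 0 then hts F c r₀ r z' ⌊w * J⌋₊ g n ω i else 0) := by
  have hJ0 : (0 : ℝ) ≤ J := Nat.cast_nonneg J
  refine ⟨fun i hi0 hi j' hj' => ?_, fun ω _ i j' h => ?_⟩
  · obtain rfl : j' = 0 := by omega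
    have e1 : (fun ω => (if (0 : ℕ) = 0 then hts F c r₀ r z' ⌊w * J⌋₊ g n ω i else 0)) =
        fun ω => ⌊(2 : ℝ) ^ (n i * J) *
          ojet F (c i) 0 (g (z' (slam F ⌊w * J⌋₊ ω)) i) ω⌋ := by
      funext ω
      rw [if_pos rfl]
      unfold hts hgt
      rw [if_pos ⟨hi0, hi⟩]
    rw [e1]
    refine ⟨(hcnt i hi0 hi).trans (Real.exp_le_exp.2 (mul_le_mul_of_nonneg_right ?_ hJ0)), V, z,
      z', fun v => g v i, (LbP.of (hlb i hi0 (by omega))).mono (Finset.Subset.refl _)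
        (le_max_left _ _) le_rfl, fun ω _ => rfl⟩
    exact_mod_cast le_max_right _ _
  · by_cases hj : j' = 0
    · subst hj
      show (if (0 : ℕ) = 0 then hts F c r₀ r z' ⌊w * J⌋₊ g n ω i else 0) = 0
      rw [if_pos rfl]
      unfold hts
      rw [if_neg fun h' => h ⟨h'.1, h'.2, le_rfl⟩]
    · show (if j' = 0 then hts F c r₀ r z' ⌊w * J⌋₊ g n ω i else 0) = 0
      rw [if_neg hj]

/-- **The rows of the own height are not full**, over a nested chain. -/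
def NfX (S : PCl m) (c : ℕ → Fin m) (r₀ r : ℕ) (E : ℕ → ℝ) (w q h δ U : ℝ) (rd p n : ℕ → ℝ) :
    Prop :=
  ∃ e₀ : ℝ, 0 < e₀ ∧ ∀ e : ℝ, 0 < e → e ≤ e₀ → ∀ K : ℕ, ∀ x : ℝ, 0 ≤ x → x ≤ q →
    Bas S (fun J F A => ∀ (V : Type) (z : PtT F → V) (z' : LnT F → V)
      (g : V → ℕ → MvPolynomial (Option (Fin m)) ℝ), LbX F c r₀ (r + 1) K e E w rd p A z z' g →
      CH (Pool.Agent.H49.Ent.cond F.p A True)
        (fun ω => ⌊(2 : ℝ) ^ ((p r + q) * J) * hgt F (c r) z' ⌊w * J⌋₊ (fun v => g v r) ω⌋)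
        (fun ω => (⌊(2 : ℝ) ^ ((p r + x) * J) *
          hgt F (c r) z' ⌊w * J⌋₊ (fun v => g v r) ω⌋,
          (z' (slam F ⌊w * J⌋₊ ω), (hts F c r₀ r z' ⌊w * J⌋₊ g n ω,
            (bI ((range r₀).image c) U J F ω, F.W ω))))) ≤
        ((1 - h) * (q - x) * Real.log 2 + δ) * J)

/-- **The rows of the own height are not full**, over a nested chain. -/
theorem nfx_of {S : PCl m} {C₀ : ℝ} (htm : TmC S C₀) {c : ℕ → Fin m} {r₀ r : ℕ} (hr : r₀ ≤ r)
    {w o q U h δ₁ δ₂ δ e₁ g₀ : ℝ} {E rd p n so Nl : ℕ → ℝ} (hwo : w ≤ o) (ho : o ≤ 1)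
    (hp : 0 ≤ p r) (hq : 0 ≤ q) (hg₀ : 0 < g₀)
    (hE : ∀ i, r₀ ≤ i → i ≤ r → 0 ≤ E i ∧ E i ≤ 1) (hpq : p r + q + E r + g₀ ≤ 1)
    (hrd : ∀ i, r₀ ≤ i → i ≤ r → 0 ≤ rd i ∧ rd i + g₀ ≤ 1)
    (hn : ∀ i, r₀ ≤ i → i < r → n i + E i + g₀ ≤ 1) (hU : U ≤ 1)
    (hraw : RawN S ((range r).image c) (c r) (p r) q h δ₁)
    (hbase : Ful S ((range r₀).image c) o U) (hful : FulC S c r₀ r o so) (he₁ : 0 < e₁)
    (hF : ∀ i, r₀ ≤ i → i ≤ r → F1 S (fun J F => ptr F J) (vg o)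
      (fun J F ω => (bI ((range r₀).image c) U J F ω, F.W ω))
      (qJets m c r₀ i 0 (fun _ _ => w) (fun l _ => p l) (fun l _ => n l))
      (qJet m ((range i).image c) (c i) 0 w (p i) (Nl i)) e₁ δ₂)
    (hNr : Nl r = p r + q) (hNn : ∀ i, r₀ ≤ i → i < r → Nl i ≤ n i)
    (hNs : ∀ i, r₀ ≤ i → i < r → Nl i ≤ so i) (hδ₂ : 0 ≤ δ₂)
    (hδ : δ₁ + (r + 1) * δ₂ + (∑ i ∈ Finset.Ico r₀ r, (so i - Nl i)) < δ) :
    NfX S c r₀ r E w q h δ U rd p n := by
  classical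
  obtain ⟨e₀, he₀⟩ : ∃ e₀ : ℝ, e₀ = min e₁ (g₀ / 2) := ⟨_, rfl⟩
  refine ⟨e₀, ?_, ?_⟩
  · rw [he₀]
    exact lt_min he₁ (by linarith)
  intro e he hle K x hx0 hxq
  have h1e : e ≤ e₁ := hle.trans (by rw [he₀]; exact min_le_left _ _)
  have h2e : e ≤ g₀ / 2 := hle.trans (by rw [he₀]; exact min_le_right _ _)
  obtain ⟨σ, hσ⟩ : ∃ σ : ℝ, σ = δ - (δ₁ + (r + 1) * δ₂ +
    ∑ i ∈ Finset.Ico r₀ r, (so i - Nl i)) := ⟨_, rfl⟩
  have hσ0 : 0 < σ := by rw [hσ]; linarith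
  have hr0 : (0 : ℝ) ≤ r := Nat.cast_nonneg r
  obtain ⟨ρ, hρ⟩ : ∃ ρ : ℝ, ρ = σ / (2 * (r + 1)) := ⟨_, rfl⟩
  have hρ0 : 0 < ρ := by rw [hρ]; positivity
  have hρr : (r + 1) * ρ = σ / 2 := by
    rw [hρ]
    field_simp
  have he1 : 0 < e + 1 := by linarith
  obtain ⟨M₁, J₁, hc1⟩ := cnt_jets m K (e := e + 1) (w := w) he1 n (fun i => max (rd i) 0) r
    (fun i _ => le_max_right _ _)
  obtain ⟨M₂, J₂, hc2⟩ := cnt_jets m K (e := e + 1) (w := w) he1 Nl (fun i => max (rd i) 0) (r + 1)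
    (fun i _ => le_max_right _ _)
  have hlogm : 0 ≤ Real.log (m + 1) := Real.log_nonneg (by
    have : (0 : ℝ) ≤ m := Nat.cast_nonneg m
    linarith)
  have l5 : 0 ≤ Real.log 5 := Real.log_nonneg (by norm_num)
  have l7 : 0 ≤ Real.log 7 := Real.log_nonneg (by norm_num)
  have l9 : 0 ≤ Real.log 9 := Real.log_nonneg (by norm_num)
  have l11 : 0 ≤ Real.log 11 := Real.log_nonneg (by norm_num)
  have hl2 : 0 < Real.log 2 := Real.log_pos one_lt_two
  have hl1 : Real.log 2 ≤ 1 := by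
    have := Real.log_two_lt_d9
    linarith
  have hgap : 0 < g₀ / 2 * Real.log 2 := by positivity
  obtain ⟨J₃, hJ₃⟩ := exists_nat_ge (Real.log (m + 1) / (g₀ / 2 * Real.log 2) +
    (Real.log 5 + Real.log 9 + Real.log 11 + r * (Real.log 11 + Real.log 7)) / (σ / 2))
  have hFe := fun i (hi0 : r₀ ≤ i) (hi : i ≤ r) => (hF i hi0 hi).mono h1e le_rfl
    (max (max K M₁) M₂)
  have hFa : Bas S (fun J F A => ∀ i, r₀ ≤ i → i ≤ r → ∀ (u : F.Ω → ℕ → ℕ → ℤ) (u' : F.Ω → ℤ),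
      (qJets m c r₀ i 0 (fun _ _ => w) (fun l _ => p l) (fun l _ => n l)).P
        (max (max K M₁) M₂) e J F A u →
      (qJet m ((range i).image c) (c i) 0 w (p i) (Nl i)).P (max (max K M₁) M₂) e J F A u' →
      ∃ (V : Type) (z : F.Ω → V), Cl2 (ptr F J) (vg o J F) A z ∧
        CH (Pool.Agent.H49.Ent.cond F.p A True) u'
          (fun ω => (u ω, (z ω, (bI ((range r₀).image c) U J F ω, F.W ω)))) ≤ δ₂ * J) := by
    have key : ∀ R ≤ r + 1, Bas S (fun J F A => ∀ i, r₀ ≤ i → i < R →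
        ∀ (u : F.Ω → ℕ → ℕ → ℤ) (u' : F.Ω → ℤ),
        (qJets m c r₀ i 0 (fun _ _ => w) (fun l _ => p l) (fun l _ => n l)).P
          (max (max K M₁) M₂) e J F A u →
        (qJet m ((range i).image c) (c i) 0 w (p i) (Nl i)).P (max (max K M₁) M₂) e J F A u' →
        ∃ (V : Type) (z : F.Ω → V), Cl2 (ptr F J) (vg o J F) A z ∧
          CH (Pool.Agent.H49.Ent.cond F.p A True) u'
            (fun ω => (u ω, (z ω, (bI ((range r₀).image c) U J F ω, F.W ω)))) ≤ δ₂ * J) := by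
      intro R
      induction R with
      | zero =>
        intro _
        exact ⟨1, one_pos, 0, fun J _ F A _ i _ hi => absurd hi (Nat.not_lt_zero i)⟩
      | succ R ih =>
        intro hR
        have h1 := ih (by omega)
        by_cases hR0 : r₀ ≤ R
        · refine Bas.mono 0 (h1.and (hFe R hR0 (by omega))) ?_
          rintro J - F A ⟨h2, h3⟩ i hi0 hi
          rcases Nat.lt_or_ge i R with h4 | h4
          · exact h2 i hi0 h4
          · obtain rfl : i = R := by omega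
            exact h3
        · refine Bas.mono 0 h1 ?_
          intro J _ F A h2 i hi0 hi
          exact absurd hi0 (by omega)
    refine Bas.mono 0 (key (r + 1) le_rfl) ?_
    intro J _ F A h2 i hi0 hi
    exact h2 i hi0 (by omega)
  refine Bas.mono (max (max J₁ J₂) J₃) (((hraw x hx0 hxq).and ((hbase ρ hρ0).and
    (hful ρ hρ0))).and (hFa.and (Pool.GRW.tmc_bas htm one_pos))) ?_
  rintro J hJ F A ⟨⟨hraw, hB, hC⟩, hH, hA, -⟩ V z z' g hlb
  have hJ1 : J₁ ≤ J := (le_max_left _ _).trans ((le_max_left _ _).trans hJ)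
  have hJ2 : J₂ ≤ J := (le_max_right _ _).trans ((le_max_left _ _).trans hJ)
  have hJ3 : (J₃ : ℝ) ≤ J := by exact_mod_cast (le_max_right _ _).trans hJ
  have hJ0 : (0 : ℝ) ≤ J := Nat.cast_nonneg J
  have t1 : 0 ≤ Real.log (m + 1) / (g₀ / 2 * Real.log 2) := by positivity
  have t2 : 0 ≤ (Real.log 5 + Real.log 9 + Real.log 11 + r * (Real.log 11 + Real.log 7)) /
    (σ / 2) := by positivity
  have f1 : Real.log (m + 1) ≤ g₀ / 2 * Real.log 2 * J := by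
    have : Real.log (m + 1) / (g₀ / 2 * Real.log 2) ≤ J := by linarith
    rw [div_le_iff₀ hgap] at this
    linarith
  have f2 : Real.log 5 + Real.log 9 + Real.log 11 + r * (Real.log 11 + Real.log 7) ≤
      σ / 2 * J := by
    have : (Real.log 5 + Real.log 9 + Real.log 11 + r * (Real.log 11 + Real.log 7)) /
      (σ / 2) ≤ J := by linarith
    rw [div_le_iff₀ (by linarith)] at this
    linarith
  have f1' : ∀ N D : ℝ, N + D + g₀ ≤ 1 →
      Real.log (m + 1) ≤ (1 - N - (D + e)) * Real.log 2 * J := by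
    intro N D hN
    refine f1.trans (mul_le_mul_of_nonneg_right ?_ hJ0)
    exact mul_le_mul_of_nonneg_right (by linarith) hl2.le
  obtain ⟨q', hq'⟩ : ∃ q' : F.Ω → ℝ, q' = Pool.Agent.H49.Ent.cond F.p A True := ⟨_, rfl⟩
  have hq'l : IsLaw q' := by
    rw [hq']
    exact isLaw_cond F.isLaw hA
  have h0 := hq'l.nonneg
  have hq'A : ∀ ω, 0 < q' ω → A ω := fun ω hω => by
    rw [hq'] at hω
    exact of_cond_pos hω
  rw [← hq'] at hraw ⊢
  have hW : vg w J F = slam F ⌊w * J⌋₊ := rfl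
  obtain ⟨W, hWd⟩ : ∃ W : ℕ, W = ⌊w * J⌋₊ := ⟨_, rfl⟩
  have hrJ : ∀ i, r₀ ≤ i → i ≤ r → ⌊(rd i + e) * J⌋₊ ≤ J := by
    intro i hi0 hi
    refine Nat.floor_le_of_le ?_
    have h1 := (hrd i hi0 hi).2
    have : (rd i + e) * J ≤ 1 * J := mul_le_mul_of_nonneg_right (by linarith) hJ0
    linarith
  have hmx : ∀ i, r₀ ≤ i → i ≤ r → max (rd i) 0 = rd i := fun i hi0 hi =>
    max_eq_left (hrd i hi0 hi).1
  have hUJ : ⌊U * J⌋₊ ≤ J := floor_le hU J
  -- the quantities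
  have hQ : ∀ i, r₀ ≤ i → i ≤ r →
      (qJets m c r₀ i 0 (fun _ _ => w) (fun l _ => p l) (fun l _ => n l)).P
        (max (max K M₁) M₂) e J F A
        (fun ω i' j' => if j' = 0 then hts F c r₀ i z' ⌊w * J⌋₊ g n ω i' else 0) := by
    intro i hi0 hi
    refine (qJets m c r₀ i 0 _ _ _).mono (le_max_left _ _) le_rfl
      (qJets_htx (R := r + 1) (by omega) hlb fun l hl0 hl => ?_)
    exact hc1 l (by omega) J hJ1 F _ _ _ A V z z' (fun v => g v l) (by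
      rw [hmx l hl0 (by omega)]
      exact hlb.wk hl0 (by omega) (hE l hl0 (by omega)).2)
  have hQ' : ∀ i, r₀ ≤ i → i ≤ r →
      (qJet m ((range i).image c) (c i) 0 w (p i) (Nl i)).P (max (max K M₁) M₂) e J F A
        (fun ω => ⌊(2 : ℝ) ^ (Nl i * J) * hgt F (c i) z' ⌊w * J⌋₊ (fun v => g v i) ω⌋) := by
    intro i hi0 hi
    refine ⟨?_, V, z, z', fun v => g v i, ?_, fun ω _ => rfl⟩
    · have h2 := hc2 i (by omega) J hJ2 F _ _ _ A V z z' (fun v => g v i) (by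
        rw [hmx i hi0 hi]
        exact hlb.wk hi0 (by omega) (hE i hi0 hi).2)
      refine h2.trans (Real.exp_le_exp.2 (mul_le_mul_of_nonneg_right ?_ hJ0))
      exact_mod_cast le_max_right _ _
    · exact (LbP.of (hlb i hi0 (by omega))).mono (Finset.Subset.refl _)
        ((le_max_left _ _).trans (le_max_left _ _)) le_rfl
  have hza : ∀ i, ∃ (V₁ : Type) (z₁ : F.Ω → V₁), Cl2 (ptr F J) (vg o J F) A z₁ ∧
      (r₀ ≤ i → i ≤ r → CH q' (fun ω => ⌊(2 : ℝ) ^ (Nl i * J) *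
          hgt F (c i) z' ⌊w * J⌋₊ (fun v => g v i) ω⌋)
        (fun ω => ((fun i' j' => if j' = 0 then hts F c r₀ i z' ⌊w * J⌋₊ g n ω i' else 0 :
          ℕ → ℕ → ℤ), (z₁ ω, (bI ((range r₀).image c) U J F ω, F.W ω)))) ≤ δ₂ * J) := by
    intro i
    by_cases hi : r₀ ≤ i ∧ i ≤ r
    · obtain ⟨V₁, z₁, hz₁, h1⟩ := hH i hi.1 hi.2 _ _ (hQ i hi.1 hi.2) (hQ' i hi.1 hi.2)
      rw [← hq'] at h1
      exact ⟨V₁, z₁, hz₁, fun _ _ => h1⟩
    · exact ⟨Unit, fun _ => (), ⟨⟨fun _ => (), fun _ _ => rfl⟩, fun _ => (), fun _ _ => rfl⟩,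
        fun a b => absurd ⟨a, b⟩ hi⟩
  choose V₁ z₁ hz₁ hH₁ using hza
  obtain ⟨⟨φa, hφa⟩, ψa, hψa⟩ := Cl2.pi hz₁
  obtain ⟨φg, hφg⟩ := vg_mono hwo ho J F
  -- the code at the ball
  have hza0 : ∀ ω, A ω → (fun i => z₁ i ω, z' (slam F ⌊w * J⌋₊ ω)) =
      ((fun s => (ψa s, z' (φg s))) (slam F ⌊o * J⌋₊ ω)) := by
    intro ω hω
    have e1 : vg o J F ω = slam F ⌊o * J⌋₊ ω := rfl
    have e2 := hφg ω
    rw [e1] at e2
    refine Prod.ext ?_ ?_
    · show (fun i => z₁ i ω) = ψa (slam F ⌊o * J⌋₊ ω)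
      rw [← e1]
      exact hψa ω hω
    · show z' (slam F ⌊w * J⌋₊ ω) = z' (φg (slam F ⌊o * J⌋₊ ω))
      rw [← e2]
      rfl
  have hcode : ∀ ω, A ω → (fun x => (φa x, z x)) (ptr F J ω) =
      (fun s => (ψa s, z' (φg s))) (slam F ⌊o * J⌋₊ ω) := by
    intro ω hω
    rw [← hza0 ω hω]
    refine Prod.ext ?_ ?_
    · exact (hφa ω hω).symm
    · exact (hlb r hr (Nat.lt_succ_self r)).cls ω hω
  have hful₀ := hB _ (fun x => (φa x, z x)) (fun s => (ψa s, z' (φg s))) hcode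
  have hfulC := hC _ (fun x => (φa x, z x)) (fun s => (ψa s, z' (φg s))) hcode
  rw [← hq'] at hful₀ hfulC
  -- abbreviations
  obtain ⟨Z, hZ⟩ : ∃ Z : F.Ω → V, Z = fun ω => z' (slam F ⌊w * J⌋₊ ω) := ⟨_, rfl⟩
  obtain ⟨B, hBd⟩ : ∃ B : F.Ω → Fin m → ℤ, B = bI ((range r₀).image c) U J F := ⟨_, rfl⟩
  obtain ⟨za, hzad⟩ : ∃ za : F.Ω → ∀ i, V₁ i, za = fun ω i => z₁ i ω := ⟨_, rfl⟩
  have hcd : ∀ ω ω', 0 < q' ω → 0 < q' ω' → (fun s => (ψa s, z' (φg s))) (slam F ⌊o * J⌋₊ ω) =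
      (fun s => (ψa s, z' (φg s))) (slam F ⌊o * J⌋₊ ω') → (za ω, Z ω) = (za ω', Z ω') := by
    intro ω ω' hω hω' e
    rw [← hza0 ω (hq'A ω hω), ← hza0 ω' (hq'A ω' hω')] at e
    rw [hzad, hZ]
    exact e
  have hLJ : J * Real.log 2 ≤ J := by
    calc (J : ℝ) * Real.log 2 ≤ J * 1 := mul_le_mul_of_nonneg_left hl1 hJ0
      _ = J := mul_one _
  have hJ02 : 0 ≤ J * Real.log 2 := by positivity
  have core := nfc_core h0 hr (fun l ω => F.X J ω (c l))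
    (fun ω => ⌊(2 : ℝ) ^ ((p r + q) * J) * hgt F (c r) z' ⌊w * J⌋₊ (fun v => g v r) ω⌋)
    (fun ω => ⌊(2 : ℝ) ^ ((p r + x) * J) * hgt F (c r) z' ⌊w * J⌋₊ (fun v => g v r) ω⌋)
    Z za (fun ω => hts F c r₀ r z' ⌊w * J⌋₊ g n ω) B F.W
    (E := ((1 - h) * (q - x) * Real.log 2 + δ₁) * J + (Real.log 9 + Real.log 11))
    (D₀ := ((range r₀).image c).card * (((J - ⌊U * J⌋₊ : ℕ) : ℝ) * Real.log 2))
    (ρ' := ρ * J) (dH := δ₂ * J) (l := Real.log 5)
    (a := fun i => (1 - n i) * (J * Real.log 2) + Real.log 11)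
    (b := fun i => ((1 - so i) - ρ) * (J * Real.log 2))
    (d := fun i => δ₂ * J + ((n i - Nl i) * (J * Real.log 2) + Real.log 7))
    ?_ ?_ ?_ ?_ ?_ ?_ ?_ ?_ ?_
  · have har := nfc_arith (a := r₀) (b := r) hJ02 hLJ hρ0.le hδ₂ l11 l7 (n := n) (s := so)
      (N := Nl) hNs
    have e1 : (fun ω => (⌊(2 : ℝ) ^ ((p r + x) * J) *
        hgt F (c r) z' ⌊w * J⌋₊ (fun v => g v r) ω⌋, (Z ω,
          (hts F c r₀ r z' ⌊w * J⌋₊ g n ω, (B ω, F.W ω))))) =
        (fun ω => (⌊(2 : ℝ) ^ ((p r + x) * J) *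
          hgt F (c r) z' ⌊w * J⌋₊ (fun v => g v r) ω⌋,
          (z' (slam F ⌊w * J⌋₊ ω), (hts F c r₀ r z' ⌊w * J⌋₊ g n ω,
            (bI ((range r₀).image c) U J F ω, F.W ω))))) := by
      rw [hZ, hBd]
    rw [e1] at core
    refine core.trans ?_
    have e2 : δ * J = σ * J + (δ₁ + (r + 1) * δ₂) * J +
        (∑ i ∈ Finset.Ico r₀ r, (so i - Nl i)) * J := by
      rw [hσ]
      ring
    have e3 : ((1 - h) * (q - x) * Real.log 2 + δ) * J =
        (1 - h) * (q - x) * Real.log 2 * J + δ * J := by ring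
    have e4 : (r + 1) * ρ * J = σ / 2 * J := by rw [hρr]
    rw [e3, e2]
    linarith
  · -- the exact point
    have h1 := row_hgt (e := E r + e) (hlb r hr (Nat.lt_succ_self r)) (hrJ r hr le_rfl)
      (by linarith [(hE r hr le_rfl).1])
      (q' := q') (p := p r) (q := q) (x := x) (by linarith) hxq (f1' _ _ hpq) hq'l hq'A
    refine le_trans (CH_mono_cond h0 fun ω ω' _ _ e => ?_) (h1.trans (by linarith [hraw]))
    simp only [Prod.mk.injEq] at e ⊢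
    obtain ⟨e1, e2, e3, e4, e5, e6⟩ := e
    rw [hZ] at e3
    exact ⟨e2, ceI_tup le_rfl fun l hl => congrFun e1 ⟨l, hl⟩, e3, e6⟩
  · -- the base, from above
    refine le_trans (CH_mono_left h0 (X' := fun ω => ceI ((range r₀).image c) (fun _ => J)
      (F.x ω)) fun ω ω' _ _ e => ?_) (le_trans (CH_mono_cond h0 fun ω ω' _ _ e => ?_)
      (ceI_cnt hq'l _ hUJ))
    · have e1 := (Prod.ext_iff.mp e).1
      exact funext fun l => tup_ceI e1 l.2
    · simp only [Prod.mk.injEq] at e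
      obtain ⟨-, -, -, e4, -⟩ := e
      rw [hBd] at e4
      exact e4
  · -- the chain, from above
    intro i hi0 hi
    have h1 := own_cnt (e := E i + e) (hlb i hi0 (by omega)) (hrJ i hi0 hi.le)
      (by linarith [(hE i hi0 hi.le).1]) (q' := q') (N := n i)
      (by linarith [hn i hi0 hi, (hE i hi0 hi.le).1]) (f1' _ _ (hn i hi0 hi)) hq'l hq'A
    refine le_trans (CH_mono_cond h0 fun ω ω' _ _ e => ?_) (h1.trans (le_of_eq (by ring)))
    simp only [Prod.mk.injEq] at e ⊢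
    obtain ⟨e1, e2, e3, e4, e5, e6⟩ := e
    rw [hZ] at e3
    have e7 := congrFun e4 i
    unfold hts at e7
    rw [if_pos ⟨hi0, hi⟩, if_pos ⟨hi0, hi⟩] at e7
    exact ⟨e7, ceI_tup le_rfl fun l hl => congrFun e1 ⟨l, hl⟩, e3, e6⟩
  · -- the base, from below
    refine hful₀.trans ((CH_mono_left h0 (X' := fun ω (l : Fin r₀) => F.X J ω (c l))
      fun ω ω' _ _ e => ?_).trans (CH_mono_cond h0 fun ω ω' hω hω' e => ?_))
    · exact ceI_tup le_rfl fun l hl => congrFun (Prod.ext_iff.mp e).1 ⟨l, hl⟩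
    · simp only [Prod.mk.injEq] at e ⊢
      obtain ⟨e1, e2, e3⟩ := e
      have e4 := hcd ω ω' hω hω' (Prod.ext e2.1 e2.2)
      rw [Prod.mk.injEq] at e4
      rw [hBd]
      exact ⟨e1, e4, e3⟩
  · -- the chain, from below
    intro i hi0 hi
    refine le_trans (le_of_eq ?_) ((hfulC i hi0 hi).trans
      (CH_mono_cond h0 fun ω ω' hω hω' e => ?_))
    · ring
    · simp only [Prod.mk.injEq] at e ⊢
      obtain ⟨e1, e2, e3⟩ := e
      have e4 := hcd ω ω' hω hω' (Prod.ext e2.1 e2.2)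
      rw [Prod.mk.injEq] at e4
      rw [hBd]
      exact ⟨e1, ceI_tup hUJ fun l hl => congrFun e1 ⟨l, by omega⟩, e4, e3⟩
  · intro ω i hi
    unfold hts
    rw [if_neg hi]
  · -- the heights
    intro i hi0 hi
    have h1 := hH₁ i hi0 hi.le
    have h2 := hgt_cnt hq'l (fun ω => hgt F (c i) z' ⌊w * J⌋₊ (fun v => g v i) ω) J
      (hNn i hi0 hi) (fun ω => ((fun l : Fin i => hts F c r₀ r z' ⌊w * J⌋₊ g n ω l),
        (B ω, ((za ω, Z ω), F.W ω))))
    have h3 := CH_le_add h0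
      (fun ω => ⌊(2 : ℝ) ^ (n i * J) * hgt F (c i) z' ⌊w * J⌋₊ (fun v => g v i) ω⌋)
      (fun ω => ⌊(2 : ℝ) ^ (Nl i * J) * hgt F (c i) z' ⌊w * J⌋₊ (fun v => g v i) ω⌋)
      (fun ω => ((fun l : Fin i => hts F c r₀ r z' ⌊w * J⌋₊ g n ω l),
        (B ω, ((za ω, Z ω), F.W ω))))
    have h4 : CH q'
        (fun ω => ⌊(2 : ℝ) ^ (Nl i * J) * hgt F (c i) z' ⌊w * J⌋₊ (fun v => g v i) ω⌋)
        (fun ω => ((fun l : Fin i => hts F c r₀ r z' ⌊w * J⌋₊ g n ω l),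
          (B ω, ((za ω, Z ω), F.W ω)))) ≤ δ₂ * J := by
      refine le_trans (CH_mono_cond h0 fun ω ω' _ _ e => ?_) h1
      simp only [Prod.mk.injEq] at e ⊢
      obtain ⟨e1, e2, ⟨e3, e4⟩, e5⟩ := e
      rw [hBd] at e2
      rw [hzad] at e3
      refine ⟨funext fun i' => funext fun j' => ?_, congrFun e3 i, e2, e5⟩
      by_cases hj : j' = 0
      · rw [if_pos hj, if_pos hj]
        unfold hts
        by_cases hi' : r₀ ≤ i' ∧ i' < i
        · have e6 := congrFun e1 ⟨i', hi'.2⟩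
          unfold hts at e6
          rw [if_pos ⟨hi'.1, hi'.2.trans hi⟩, if_pos ⟨hi'.1, hi'.2.trans hi⟩] at e6
          rw [if_pos hi', if_pos hi']
          exact e6
        · rw [if_neg hi', if_neg hi']
      · rw [if_neg hj, if_neg hj]
    have h5 : (fun ω => hts F c r₀ r z' ⌊w * J⌋₊ g n ω i) =
        (fun ω => ⌊(2 : ℝ) ^ (n i * J) * hgt F (c i) z' ⌊w * J⌋₊ (fun v => g v i) ω⌋) := by
      funext ω
      unfold hts
      rw [if_pos ⟨hi0, hi⟩]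
    rw [h5]
    have h6 : (n i - Nl i) * J * Real.log 2 = (n i - Nl i) * (J * Real.log 2) := by ring
    rw [h6] at h2
    linarith only [h2, h3, h4]
  · -- the height of the coordinate
    have h1 := hH₁ r hr le_rfl
    rw [hNr] at h1
    refine le_trans (CH_mono_cond h0 fun ω ω' _ _ e => ?_) h1
    simp only [Prod.mk.injEq] at e ⊢
    obtain ⟨e1, e2, ⟨e3, e4⟩, e5⟩ := e
    rw [hBd] at e2
    rw [hzad] at e3
    refine ⟨funext fun i' => funext fun j' => ?_, congrFun e3 r, e2, e5⟩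
    by_cases hj : j' = 0
    · rw [if_pos hj, if_pos hj]
      by_cases hi' : i' < r
      · exact congrFun e1 ⟨i', hi'⟩
      · unfold hts
        rw [if_neg fun h => hi' h.2, if_neg fun h => hi' h.2]
    · rw [if_neg hj, if_neg hj]
  · have e5 : (5 : ℝ) = 2 * ((2 : ℕ) : ℝ) + 1 := by norm_num
    rw [e5]
    refine CH_pair hq'l _ _ fun ω ω' hω hω' e => ?_
    have g1 := fl_one_mul (Real.rpow_pos_of_pos (by norm_num) _) e
    refine floor_sub_le (D := 1) ?_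
    rw [← mul_sub, abs_mul, abs_of_pos (Real.rpow_pos_of_pos (by norm_num) _)]
    rw [abs_mul, abs_of_pos (Real.rpow_pos_of_pos (by norm_num) _)] at g1
    push_cast
    refine (mul_le_mul_of_nonneg_right ?_ (abs_nonneg _)).trans g1
    refine Real.rpow_le_rpow_of_exponent_le (by norm_num) ?_
    exact mul_le_mul_of_nonneg_right (by linarith) hJ0



end Pool.AJX
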