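import Pool.Agent.H71.AJX.Nsx

/-!
# The own path over a chain known to few digits only, labels with gradient exponents
-/

set_option autoImplicit false

namespace Pool.AJX

open Finset Real MvPolynomial
open Pool.Agent.H49.Ent Pool.Agent.H32.Dense Pool.STK Pool.KA Pool.KSAT Pool.K2S Pool.PB Pool.GEN
open Pool.S6C Pool.RCD Pool.LA91 Pool.OWN68 Pool.CHT Pool.AJW
open Pool.GRD (LbP)
open Pool.UNJ (ceI Tub)

section nk

variable {m : ℕ} {S : PCl m} {C₀ : ℝ} {U : Type} {α γ : ∀ J : ℕ, Fam m J → Type}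
  {f : ∀ (J : ℕ) (F : Fam m J), F.Ω → α J F} {y : ∀ (J : ℕ) (F : Fam m J), F.Ω → γ J F}

/-- **A chain of windows for the heights**, with the heights of the chain at every window. -/
theorem chainMx (htm : TmC S C₀) {c : ℕ → Fin m} {r₀ r : ℕ} {κ : Fin m}
    {a p₀ N N₁ ρ : ℝ} {Pv : ℕ → ℝ → ℝ} {Lm : ℕ → ℝ → ℝ} {Q : Qt m U}
    (ha : a < 1) (hap : a < p₀) (hp0 : p₀ ≤ 1) (hρ : 0 < ρ)
    (hf : ∀ (J : ℕ) (F : Fam m J), ∃ φ : α J F → PtT F, ∀ ω, ptr F J ω = φ (f J F ω))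
    (hy : Kn0 ((range r₀).image c) p₀ y) (hN : N ≤ N₁)
    (b P : ℕ → ℝ)
    (hst : ∀ h : ℝ, 0 < h → F1 S f (vg a) y Q
      (qJet m ((range r).image c) κ 0 (b 0) (P 0) N₁) (ρ / 8) h) : ∀ n : ℕ,
    (∀ i ≤ n, b i ≤ a) →
    (∀ i ≤ n, ∀ N : ℝ, Exs S (qJet m ((range r).image c) κ 0 (b i) (P i) N)) →
    (∀ i ≤ n, ∃ (u₁ : ℝ) (rd : ℕ → ℝ), Chn S c r₀ r (b i) (b i) u₁ (fun l => Pv l (b i)) rd ∧
      ∀ l, r₀ ≤ l → l < r → 0 ≤ rd l) →
    (∀ i ≤ n, ∀ h : ℝ, 0 < h → F1 S f (vg a) y Q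
      (qJets m c r₀ r 0 (fun _ _ => b i) (fun l _ => Pv l (b i))
        (fun l _ => Pv l (b i) + Lm l (b i))) (ρ / 8) h) →
    (∀ i ≤ n, ∀ l, r₀ ≤ l → l < r → ρ < Lm l (b i)) →
    (∀ i ≤ n, ∀ l, r₀ ≤ l → l < r → Lm l (b i) ≤ p₀ - b i) →
    (∀ i ≤ n, ∀ l, r₀ ≤ l → l < r → ∀ l', r₀ ≤ l' → l' < l →
      Lm l (b i) + ρ ≤ Lm l' (b i)) →
    N + ρ ≤ P 0 + (p₀ - b 0) →
    (∀ l, r₀ ≤ l → l < r → N + 2 * ρ ≤ P 0 + Lm l (b 0)) →
    (∀ i < n, N + ρ ≤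
      min (P i) (P (i + 1)) + (p₀ - max (b i) (b (i + 1)))) →
    (∀ i < n, ∀ l, r₀ ≤ l → l < r → N + 2 * ρ ≤
      min (P i) (P (i + 1)) + Lm l (max (b i) (b (i + 1)))) →
    ∀ h : ℝ, 0 < h → F1 S f (vg a) y Q (qJet m ((range r).image c) κ 0 (b n) (P n) N)
      (ρ / 8) h := by
  -- one step
  have step : ∀ (w₁ w₂ β p₁ p₂ Na Nb : ℝ), w₁ ≤ β → w₂ ≤ β → β ≤ a →
      (∀ N : ℝ, Exs S (qJet m ((range r).image c) κ 0 w₁ p₁ N)) →
      (∃ (u₁ : ℝ) (rd : ℕ → ℝ), Chn S c r₀ r β β u₁ (fun l => Pv l β) rd ∧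
        ∀ l, r₀ ≤ l → l < r → 0 ≤ rd l) →
      (∀ h : ℝ, 0 < h → F1 S f (vg a) y Q
        (qJets m c r₀ r 0 (fun _ _ => β) (fun l _ => Pv l β)
          (fun l _ => Pv l β + Lm l β)) (ρ / 8) h) →
      (∀ l, r₀ ≤ l → l < r → ρ < Lm l β) →
      (∀ l, r₀ ≤ l → l < r → Lm l β ≤ p₀ - β) →
      (∀ l, r₀ ≤ l → l < r → ∀ l', r₀ ≤ l' → l' < l → Lm l β + ρ ≤ Lm l' β) → Nb ≤ Na →
      Nb + ρ ≤ min p₁ p₂ + (p₀ - β) →
      (∀ l, r₀ ≤ l → l < r → Nb + 2 * ρ ≤ min p₁ p₂ + Lm l β) →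
      (∀ h : ℝ, 0 < h → F1 S f (vg a) y Q (qJet m ((range r).image c) κ 0 w₁ p₁ Na)
        (ρ / 8) h) →
      ∀ h : ℝ, 0 < h → F1 S f (vg a) y Q (qJet m ((range r).image c) κ 0 w₂ p₂ Nb)
        (ρ / 8) h := by
    intro w₁ w₂ β p₁ p₂ Na Nb h1 h2 h3 h5 h6 h7 h8 h9 h10 h11 h12 h13 h14 h hh
    obtain ⟨u₁, rd, hch, hrd⟩ := h6
    have e2 := hgt_F1 (y := y) htm hch (k := κ) (wv := fun _ _ => β)
      (pv := fun i _ => Pv i β) (Nv := fun l _ => Pv l β + Lm l β)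
      (lv := fun l => Lm l β - ρ) (w₁ := w₁) (w₂ := w₂)
      (p₁ := p₁) (p₂ := p₂) (N₁ := Na) (N₂ := Nb) (p₀ := p₀) (σ₀ := ρ)
      (fun _ _ _ _ _ => le_rfl) h1 h2 (lt_of_le_of_lt h3 hap) hp0 hρ
      (fun l x1 x2 => by linarith [h8 l x1 x2])
      (fun l x1 x2 => le_of_eq (by ring))
      (fun l x1 x2 => by
        rw [min_self]
        linarith [h9 l x1 x2])
      (fun l x1 x2 l' x3 x4 => by
        rw [min_self]
        linarith [h10 l x1 x2 l' x3 x4]) h11 h12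
      (fun l x1 x2 => by linarith [h13 l x1 x2]) hf hy (h := h / 3) (by linarith)
    have e3 := F1.pair htm (h7 (h / 3) (by linarith)) (h14 (h / 3) (by linarith))
    have e4 := F1.trans htm ((exs_qjets fun i hi0 hi j' _ => exs_jet (hrd i hi0 hi)
      (hch.att i hi0 hi)).prod (h5 Na)) (by linarith) e3 (e2.up h3 ha.le)
    have e5 : h / 3 + h / 3 + h / 3 = h := by ring
    rwa [e5] at e4
  intro n
  induction n with
  | zero =>
    intro h1 h3 h4 hV h5 h6 h7 h8 h9 h10 h11 h hh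
    exact step (b 0) (b 0) (b 0) (P 0) (P 0) N₁ N le_rfl le_rfl (h1 0 le_rfl)
      (h3 0 le_rfl) (h4 0 le_rfl) (hV 0 le_rfl) (h5 0 le_rfl) (h6 0 le_rfl) (h7 0 le_rfl) hN
      (by rw [min_self]; exact h8) (fun l a b => by rw [min_self]; exact h9 l a b) hst h hh
  | succ n ih =>
    intro h1 h3 h4 hV h5 h6 h7 h8 h9 h10 h11 h hh
    have e1 := ih (fun i hi => h1 i (by omega))
      (fun i hi => h3 i (by omega)) (fun i hi => h4 i (by omega)) (fun i hi => hV i (by omega))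
      (fun i hi => h5 i (by omega)) (fun i hi => h6 i (by omega)) (fun i hi => h7 i (by omega))
      h8 h9 (fun i hi => h10 i (by omega)) (fun i hi => h11 i (by omega))
    obtain ⟨β, hβ⟩ : ∃ β : ℝ, β = max (b n) (b (n + 1)) := ⟨_, rfl⟩
    have hm1 : β ≤ a := by
      rw [hβ]
      exact max_le (h1 n (by omega)) (h1 (n + 1) le_rfl)
    have hbn : b n ≤ β := by rw [hβ]; exact le_max_left _ _
    have hbn1 : b (n + 1) ≤ β := by rw [hβ]; exact le_max_right _ _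
    have hβc : ∃ i ≤ n + 1, b i = β := by
      rcases max_cases (b n) (b (n + 1)) with ⟨e, -⟩ | ⟨e, -⟩
      · exact ⟨n, by omega, by rw [hβ, e]⟩
      · exact ⟨n + 1, le_rfl, by rw [hβ, e]⟩
    obtain ⟨i₀, hi₀, hbi⟩ := hβc
    have g10 := h10 n (Nat.lt_succ_self n)
    have g11 := h11 n (Nat.lt_succ_self n)
    rw [← hβ] at g10 g11
    have a4 := h4 i₀ hi₀
    have aV := hV i₀ hi₀
    have a5 := h5 i₀ hi₀
    have a6 := h6 i₀ hi₀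
    have a7 := h7 i₀ hi₀
    rw [hbi] at a4 aV a5 a6 a7
    exact step (b n) (b (n + 1)) β (P n) (P (n + 1)) N N hbn hbn1 hm1 (h3 n (by omega)) a4 aV
      a5 a6 a7 le_rfl g10 g11 e1 h hh

end nk

/-- **The numbers** of a chain of windows. -/
structure MshX {m : ℕ} (S : PCl m) (c : ℕ → Fin m) (r₀ r : ℕ) (b : ℕ → ℝ) (M : ℕ)
    (Pv : ℕ → ℝ → ℝ) (D n : ℕ → ℝ) (Ub ρ : ℝ) : Prop where
  hr : r₀ ≤ r
  ρ0 : 0 < ρ
  b0 : 0 ≤ b 0
  mono : ∀ k < M, b k ≤ b (k + 1)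
  bU : b M < Ub
  U1 : Ub ≤ 1
  chn : ∀ k ≤ M, ∃ (u₁ : ℝ) (rd : ℕ → ℝ),
    Chn S c r₀ r (b k) (b k) u₁ (fun l => Pv l (b k)) rd ∧ ∀ l, r₀ ≤ l → l < r → 0 ≤ rd l
  exs : ∀ k ≤ M, ∀ i, r₀ ≤ i → i ≤ r → ∀ N : ℝ,
    Exs S (qJet m ((range i).image c) (c i) 0 (b k) (Pv i (b k)) N)
  Dn : ∀ l, r₀ ≤ l → l < r → D l ≤ n l
  lo : ∀ k ≤ M, ∀ l, r₀ ≤ l → l < r → Pv l (b k) + ρ < D l
  hi : ∀ k ≤ M, ∀ l, r₀ ≤ l → l < r → D l + ρ ≤ Pv l (b k) + (Ub - b k)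
  nest : ∀ k ≤ M, ∀ l, r₀ ≤ l → l < r → ∀ l', r₀ ≤ l' → l' < l →
    D l - Pv l (b k) + 2 * ρ ≤ D l' - Pv l' (b k)
  up : ∀ k < M, ∀ l, r₀ ≤ l → l < r →
    D l + ρ ≤ min (Pv l (b k)) (Pv l (b (k + 1))) + (Ub - b (k + 1))
  up' : ∀ k < M, ∀ l, r₀ ≤ l → l < r → ∀ l', r₀ ≤ l' → l' < l →
    D l + 2 * ρ ≤ min (Pv l (b k)) (Pv l (b (k + 1))) + (D l' - Pv l' (b (k + 1)))

namespace MshX

variable {m : ℕ} {S : PCl m} {C₀ : ℝ} {c : ℕ → Fin m} {r₀ r : ℕ} {b : ℕ → ℝ} {M : ℕ}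
  {Pv : ℕ → ℝ → ℝ} {D n : ℕ → ℝ} {Ub ρ : ℝ}
  {α γ : ∀ J : ℕ, Fam m J → Type} {f : ∀ (J : ℕ) (F : Fam m J), F.Ω → α J F}
  {y : ∀ (J : ℕ) (F : Fam m J), F.Ω → γ J F}

theorem bmono (H : MshX S c r₀ r b M Pv D n Ub ρ) {k l : ℕ} (hkl : k ≤ l) (hl : l ≤ M) :
    b k ≤ b l := by
  induction l, hkl using Nat.le_induction with
  | base => exact le_rfl
  | succ l hkl ih => exact (ih (by omega)).trans (H.mono l (by omega))

theorem bM1 (H : MshX S c r₀ r b M Pv D n Ub ρ) : b M < 1 := H.bU.trans_le H.U1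

/-- **The heights of the chain at every window.** -/
theorem hup (htm : TmC S C₀) (H : MshX S c r₀ r b M Pv D n Ub ρ)
    (hf : ∀ (J : ℕ) (F : Fam m J), ∃ φ : α J F → PtT F, ∀ ω, ptr F J ω = φ (f J F ω))
    (hy : Kn0 ((range r₀).image c) Ub y) {U : Type} {Q : Qt m U} {i : ℕ} (hi : i ≤ r)
    (hQ : ∀ l, r₀ ≤ l → l < i → ∀ h : ℝ, 0 < h → F1 S f (vg (b M)) y Q
      (qJet m ((range l).image c) (c l) 0 (b 0) (Pv l (b 0)) (D l)) (ρ / 8) h) :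
    ∀ n ≤ i, ∀ l, r₀ ≤ l → l < n → ∀ k ≤ M, ∀ h : ℝ, 0 < h →
      F1 S f (vg (b M)) y Q (qJet m ((range l).image c) (c l) 0 (b k) (Pv l (b k)) (D l))
        (ρ / 8) h := by
  intro n
  induction n with
  | zero =>
    intro _ l _ hl
    exact absurd hl (Nat.not_lt_zero l)
  | succ n ih =>
    intro hn' l hl0 hl k hk h hh
    have ih := ih (by omega)
    rcases Nat.lt_or_ge l n with h3 | h3
    · exact ih l hl0 h3 k hk h hh
    · obtain rfl : l = n := by omega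
      have hli : l < i := by omega
      have hlr : l < r := by omega
      have hρ := H.ρ0
      have hmx : ∀ j < k, max (b j) (b (j + 1)) = b (j + 1) := fun j hj =>
        max_eq_right (H.mono j (by omega))
      refine chainMx htm (κ := c l) (p₀ := Ub) (N := D l) (N₁ := D l)
        (Lm := fun l β => D l - Pv l β) (Pv := Pv)
        H.bM1 H.bU H.U1 hρ hf hy le_rfl b (fun k => Pv l (b k))
        (hQ l hl0 hli) k (fun j hj => H.bmono (hj.trans hk) le_rfl)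
        (fun j hj => H.exs j (hj.trans hk) l hl0 hlr.le) (fun j hj => ?_) (fun j hj => ?_)
        (fun j hj l' x y => by linarith [H.lo j (hj.trans hk) l' x (y.trans hlr)])
        (fun j hj l' x y => by linarith [H.hi j (hj.trans hk) l' x (y.trans hlr)])
        (fun j hj l' x y l'' x' y' => by
          linarith [H.nest j (hj.trans hk) l' x (y.trans hlr) l'' x' y'])
        ?_ (fun l' x y => ?_) (fun j hj => ?_) (fun j hj l' x y => ?_) h hh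
      · obtain ⟨u₁, rd, h4, h5⟩ := H.chn j (hj.trans hk)
        exact ⟨u₁, rd, h4.take hl0 hlr.le, fun l' x y => h5 l' x (y.trans hlr)⟩
      · intro h' hh'
        have e1 := F1.qjets (y := y) (f := f) (g := vg (b M)) htm (Q := Q) (c := c) (r₀ := r₀)
          (r := l) (j := 0) (w := fun _ _ => b j) (p := fun l _ => Pv l (b j))
          (N := fun l _ => Pv l (b j) + (D l - Pv l (b j))) (e := ρ / 8)
          (η := h' / ((l * (0 + 1) : ℕ) + 1)) (by positivity)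
          (fun l' a b' j' hj' => by
            obtain rfl : j' = 0 := by omega
            rw [add_sub_cancel]
            exact ih l' a b' j (hj.trans hk) _ (by positivity))
        refine e1.mono le_rfl ?_
        rw [mul_div_assoc', div_le_iff₀ (by positivity)]
        nlinarith
      · linarith [H.hi 0 (Nat.zero_le _) l hl0 hlr]
      · linarith [H.nest 0 (Nat.zero_le _) l hl0 hlr l' x y]
      · rw [hmx j hj]
        exact H.up j (by omega) l hl0 hlr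
      · rw [hmx j hj]
        exact H.up' j (by omega) l hl0 hlr l' x y

/-- **The own height over the first window**, from the record at the last one. -/
theorem hdn (htm : TmC S C₀) (H : MshX S c r₀ r b M Pv D n Ub ρ)
    (hf : ∀ (J : ℕ) (F : Fam m J), ∃ φ : α J F → PtT F, ∀ ω, ptr F J ω = φ (f J F ω))
    (hy : Kn0 ((range r₀).image c) Ub y) {U : Type} {Q : Qt m U} {i : ℕ} (hi0 : r₀ ≤ i)
    (hi : i ≤ r)
    (hV : ∀ l, r₀ ≤ l → l < i → ∀ k ≤ M, ∀ h : ℝ, 0 < h →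
      F1 S f (vg (b M)) y Q (qJet m ((range l).image c) (c l) 0 (b k) (Pv l (b k)) (D l))
        (ρ / 8) h) {N : ℝ} (hN : TgtN r₀ i b M Pv D Ub ρ N) :
    ∀ h : ℝ, 0 < h → F1 S f (vg (b M)) y Q
      (qJet m ((range i).image c) (c i) 0 (b 0) (Pv i (b 0)) N) (ρ / 8) h := by
  intro h hh
  have hρ := H.ρ0
  obtain ⟨b', hb'⟩ : ∃ b' : ℕ → ℝ, b' = fun k => b (M - k) := ⟨_, rfl⟩
  have e1 : b' 0 = b M := by rw [hb']; simp
  have e2 : b' M = b 0 := by rw [hb']; simp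
  have hb0M : 0 ≤ b M := H.b0.trans (H.bmono (Nat.zero_le M) le_rfl)
  have hmx : ∀ j < M, max (b' j) (b' (j + 1)) = b (M - (j + 1) + 1) := by
    intro j hj
    rw [hb']
    dsimp only
    have e3 : M - j = M - (j + 1) + 1 := by omega
    rw [e3]
    exact max_eq_left (H.mono _ (by omega))
  have hpr : ∀ j < M, min (Pv i (b' j)) (Pv i (b' (j + 1))) =
      min (Pv i (b (M - (j + 1)))) (Pv i (b (M - (j + 1) + 1))) := by
    intro j hj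
    rw [hb']
    dsimp only
    have e3 : M - j = M - (j + 1) + 1 := by omega
    rw [e3, min_comm]
  have key := chainMx htm (y := y) (f := f) (κ := c i) (a := b M) (p₀ := Ub)
    (N := N) (N₁ := N) (Q := Q)
    (Lm := fun l β => D l - Pv l β) (Pv := Pv)
    H.bM1 H.bU H.U1 hρ hf hy le_rfl b' (fun k => Pv i (b' k))
    (fun h' hh' => F1.of0 htm ((few0_room htm (by rw [e1]; exact hb0M)
      (by rw [e1]; exact H.bM1) hρ (by
        rw [e1, Nat.cast_zero, zero_mul, add_zero]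
        exact hN.nat) f (vg (b M)) y hh').mono (by linarith) le_rfl)) M
    (fun j hj => by rw [hb']; exact H.bmono (Nat.sub_le M j) le_rfl)
    (fun j hj => by rw [hb']; exact H.exs _ (Nat.sub_le M j) i hi0 hi) (fun j hj => ?_)
    (fun j hj => ?_)
    (fun j hj l' x y => by
      rw [hb']
      dsimp only
      linarith [H.lo _ (Nat.sub_le M j) l' x (y.trans_le hi)])
    (fun j hj l' x y => by
      rw [hb']
      dsimp only
      linarith [H.hi _ (Nat.sub_le M j) l' x (y.trans_le hi)])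
    (fun j hj l' x y l'' x' y' => by
      rw [hb']
      dsimp only
      linarith [H.nest _ (Nat.sub_le M j) l' x (y.trans_le hi) l'' x' y'])
    ?_ (fun l' x y => ?_) (fun j hj => ?_) (fun j hj l' x y => ?_) h hh
  · rw [e2] at key
    exact key
  · rw [hb']
    obtain ⟨u₁, rd, h4, h5⟩ := H.chn (M - j) (Nat.sub_le M j)
    exact ⟨u₁, rd, h4.take hi0 hi, fun l' x y => h5 l' x (y.trans_le hi)⟩
  · intro h' hh'
    rw [hb']
    dsimp only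
    have e1 := F1.qjets (y := y) (f := f) (g := vg (b M)) htm (Q := Q) (c := c) (r₀ := r₀)
      (r := i) (j := 0) (w := fun _ _ => b (M - j)) (p := fun l _ => Pv l (b (M - j)))
      (N := fun l _ => Pv l (b (M - j)) + (D l - Pv l (b (M - j)))) (e := ρ / 8)
      (η := h' / ((i * (0 + 1) : ℕ) + 1)) (by positivity)
      (fun l' a b' j' hj' => by
        obtain rfl : j' = 0 := by omega
        rw [add_sub_cancel]
        exact hV l' a b' _ (Nat.sub_le M j) _ (by positivity))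
    refine e1.mono le_rfl ?_
    rw [mul_div_assoc', div_le_iff₀ (by positivity)]
    nlinarith
  · rw [e1]
    linarith [hN.nat, H.bU]
  · rw [e1]
    linarith [hN.nat, H.lo M le_rfl l' x (y.trans_le hi)]
  · rw [hmx j hj, hpr j hj]
    exact hN.dn _ (by omega)
  · rw [hmx j hj, hpr j hj]
    exact hN.dn' _ (by omega) l' x y

/-- **The own height over the first window**, relative to the heights of the chain there. -/
theorem hgt (htm : TmC S C₀) (H : MshX S c r₀ r b M Pv D n Ub ρ)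
    (hf : ∀ (J : ℕ) (F : Fam m J), ∃ φ : α J F → PtT F, ∀ ω, ptr F J ω = φ (f J F ω))
    (hy : Kn0 ((range r₀).image c) Ub y) {i : ℕ} (hi0 : r₀ ≤ i) (hi : i ≤ r)
    {N : ℝ} (hN : TgtN r₀ i b M Pv D Ub ρ N) {h : ℝ} (hh : 0 < h) :
    F1 S f (vg (b M)) y (qJets m c r₀ i 0 (fun _ _ => b 0) (fun l _ => Pv l (b 0))
        (fun l _ => n l))
      (qJet m ((range i).image c) (c i) 0 (b 0) (Pv i (b 0)) N) (ρ / 8) h := by
  have hρ := H.ρ0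
  have hb0 : b 0 ≤ b M := H.bmono (Nat.zero_le M) le_rfl
  refine H.hdn htm hf hy hi0 hi (H.hup htm hf hy hi ?_ i le_rfl) hN h hh
  -- from the quantity
  intro l hl0 hli h hh
  have hlr : l < r := by omega
  obtain ⟨u₁, rd, hch, hrd⟩ := H.chn 0 (Nat.zero_le M)
  have e2 := hgt_F1 (y := y) htm (hch.take hl0 hlr.le) (k := c l) (wv := fun _ _ => b 0)
    (pv := fun i _ => Pv i (b 0)) (Nv := fun l _ => n l)
    (lv := fun l => D l - Pv l (b 0) - ρ) (w₁ := b 0) (w₂ := b 0)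
    (p₁ := Pv l (b 0)) (p₂ := Pv l (b 0)) (N₁ := n l) (N₂ := D l) (p₀ := Ub)
    (σ₀ := ρ) (fun _ _ _ _ _ => le_rfl) le_rfl le_rfl (lt_of_le_of_lt hb0 H.bU) H.U1 hρ
    (fun l' x1 x2 => by linarith [H.lo 0 (Nat.zero_le M) l' x1 (x2.trans hlr)])
    (fun l' x1 x2 => by linarith [H.Dn l' x1 (x2.trans hlr)])
    (fun l' x1 x2 => by
      rw [min_self]
      linarith [H.hi 0 (Nat.zero_le M) l' x1 (x2.trans hlr)])
    (fun l' x1 x2 l'' x3 x4 => by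
      rw [min_self]
      linarith [H.nest 0 (Nat.zero_le M) l' x1 (x2.trans hlr) l'' x3 x4])
    (H.Dn l hl0 hlr)
    (by
      rw [min_self]
      linarith [H.hi 0 (Nat.zero_le M) l hl0 hlr])
    (fun l' x1 x2 => by
      rw [min_self]
      linarith [H.nest 0 (Nat.zero_le M) l hl0 hlr l' x1 x2]) hf hy (h := h) hh
  refine F1.pull htm (Q₁ := (qJets m c r₀ l 0 (fun _ _ => b 0) (fun i _ => Pv i (b 0))
    (fun l _ => n l)).prod (qJet m ((range l).image c) (c l) 0 (b 0) (Pv l (b 0))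
      (n l))) (fun u => ((fun i' j' => if i' < l then u i' j' else 0), u l 0)) ?_
    (e2.up hb0 H.bM1.le)
  intro K e J F A u hu
  refine ⟨⟨fun i' a b' j' c' => ?_, fun ω hω i' j' h' => ?_⟩, ?_⟩
  · have e1 := hu.1 i' a (b'.trans hli) j' c'
    show (qJet m _ _ _ _ _ _).P K e J F A (fun ω => if i' < l then u ω i' j' else 0)
    simp only [if_pos b']
    exact e1
  · show (if i' < l then u ω i' j' else 0) = 0
    split_ifs with h3
    · exact hu.2 ω hω i' j' fun h4 => h' ⟨h4.1, h3, h4.2.2⟩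
    · rfl
  · exact hu.1 l hl0 hli 0 le_rfl

/-- **The rows of the own height over the first window.** -/
theorem nfc (htm : TmC S C₀) (H : MshX S c r₀ r b M Pv D n Ub ρ) {q q' h δ₁ δ g₀ : ℝ}
    {E rd N : ℕ → ℝ} (hE : ∀ i, r₀ ≤ i → i ≤ r → 0 ≤ E i ∧ E i ≤ 1) (hq0 : 0 ≤ q') (hqq : q' ≤ q) (hp0 : 0 ≤ Pv r (b 0)) (hg₀ : 0 < g₀)
    (hpq : Pv r (b 0) + q + E r + g₀ ≤ 1) (hrd : ∀ i, r₀ ≤ i → i ≤ r → 0 ≤ rd i ∧ rd i + g₀ ≤ 1)
    (hn1 : ∀ i, r₀ ≤ i → i < r → n i + E i + g₀ ≤ 1) (hU1 : Ub < 1)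
    (hN : ∀ i, r₀ ≤ i → i < r → TgtN r₀ i b M Pv D Ub ρ (N i) ∧ N i ≤ n i)
    (hNr : TgtN r₀ r b M Pv D Ub ρ (Pv r (b 0) + q))
    (hraw : RawN S ((range r).image c) (c r) (Pv r (b 0)) q' h δ₁)
    (hδ : δ₁ + ∑ i ∈ Finset.Ico r₀ r, (Pv i (b M) - N i) < δ) :
    NfX S c r₀ r E (b 0) q' h δ Ub rd (fun l => Pv l (b 0)) n := by
  classical
  obtain ⟨u₁, rdM, hchM, -⟩ := H.chn M le_rfl
  have hρ := H.ρ0
  have hb0 : b 0 ≤ b M := H.bmono (Nat.zero_le M) le_rfl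
  have hr0 : (0 : ℝ) ≤ r := Nat.cast_nonneg r
  obtain ⟨δ₂, hδ₂⟩ : ∃ δ₂ : ℝ, δ₂ = (δ - (δ₁ + ∑ i ∈ Finset.Ico r₀ r, (Pv i (b M) - N i))) /
    (2 * (r + 1)) := ⟨_, rfl⟩
  have hδ₂0 : 0 < δ₂ := by
    rw [hδ₂]
    exact div_pos (by linarith) (by linarith)
  have hδ₂e : (r + 1) * δ₂ = (δ - (δ₁ + ∑ i ∈ Finset.Ico r₀ r, (Pv i (b M) - N i))) / 2 := by
    rw [hδ₂]
    field_simp
  obtain ⟨Nl, hNl⟩ : ∃ Nl : ℕ → ℝ, Nl = fun i => if i = r then Pv r (b 0) + q' else N i :=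
    ⟨_, rfl⟩
  have hNr' : Nl r = Pv r (b 0) + q' := by
    rw [hNl]
    exact if_pos rfl
  have hNi : ∀ i, i < r → Nl i = N i := by
    intro i hi
    rw [hNl]
    exact if_neg hi.ne
  refine nfx_of htm H.hr (w := b 0) (o := b M) (q := q') (U := Ub) (so := fun i => Pv i (b M))
    (Nl := Nl) (e₁ := ρ / 8) (g₀ := g₀) (δ₁ := δ₁) (δ₂ := δ₂) hb0 H.bM1.le hp0 hq0 hg₀
    hE (by linarith) hrd hn1 hU1.le hraw
    (hchM.base _ H.bU hU1) hchM.ful (by linarith) ?_ hNr' ?_ ?_ hδ₂0.le ?_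
  · intro i hi0 hi
    have hT : TgtN r₀ i b M Pv D Ub ρ (Nl i) := by
      rcases Nat.lt_or_ge i r with h1 | h1
      · rw [hNi i h1]
        exact (hN i hi0 h1).1
      · obtain rfl : i = r := by omega
        rw [hNr']
        exact ⟨by linarith [hNr.nat], fun k hk => by linarith [hNr.dn k hk],
          fun k hk l x y => by linarith [hNr.dn' k hk l x y]⟩
    exact H.hgt htm (fun J F => ⟨fun x => x, fun _ => rfl⟩)
      (kn0_bI ((range r₀).image c) Ub) hi0 hi hT hδ₂0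
  · intro i hi0 hi
    rw [hNi i hi]
    exact (hN i hi0 hi).2
  · intro i hi0 hi
    rw [hNi i hi]
    linarith [(hN i hi0 hi).1.nat]
  · have h1 : ∑ i ∈ Finset.Ico r₀ r, (Pv i (b M) - Nl i) =
        ∑ i ∈ Finset.Ico r₀ r, (Pv i (b M) - N i) :=
      Finset.sum_congr rfl fun i hi => by rw [hNi i (Finset.mem_Ico.1 hi).2]
    rw [h1]
    linarith

/-- **The value of the own path**, for the labels of one family. -/
theorem valb (htm : TmC S C₀) (H : MshX S c r₀ r b M Pv D n Ub ρ) {K : ℕ} {U₀ : Type}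
    {Qu : Qt m U₀} {a : ℝ} (hba : b M ≤ a) (ha : a ≤ 1)
    (hf : ∀ (J : ℕ) (F : Fam m J), ∃ φ : α J F → PtT F, ∀ ω, ptr F J ω = φ (f J F ω))
    (hy : Kn0 ((range r₀).image c) Ub y) {δ₁ δ₂ e N lam : ℝ} {E rd : ℕ → ℝ}
    (hE : ∀ i, r₀ ≤ i → i ≤ r → E i ≤ 1) (hrd : ∀ i, r₀ ≤ i → i ≤ r → 0 ≤ rd i) (he : 0 < e)
    (he8 : e ≤ ρ / 8) (hN : TgtN r₀ r b M Pv D Ub ρ N)
    (hctx : FwX S f (vg a) y Qu c r₀ (r + 1) K E (b 0) rd (fun l => Pv l (b 0))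
      (ctx c r₀ r K (b 0) lam n) e δ₁)
    (hδ : δ₁ < δ₂) :
    FwX S f (vg a) y Qu c r₀ (r + 1) K E (b 0) rd (fun l => Pv l (b 0)) (hgf c r (b 0) N) e δ₂ := by
  classical
  have hb0 : b 0 ≤ b M := H.bmono (Nat.zero_le M) le_rfl
  obtain ⟨h', hh'⟩ : ∃ h' : ℝ, h' = (δ₂ - δ₁) / 4 := ⟨_, rfl⟩
  have hh0 : 0 < h' := by rw [hh']; linarith
  have hyT : ∀ (J : ℕ) (F : Fam m J), ∃ φ : γ J F → ℕ, ∀ ω, F.T ω = φ (y J F ω) := by
    intro J F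
    obtain ⟨φ, hφ⟩ := hy J F
    exact ⟨fun x => (φ x).1, fun ω => (congrArg Prod.fst (hφ ω)).symm⟩
  have a3 := (F1.up hba ha (H.hgt htm hf hy H.hr le_rfl hN hh0)).mono he8 le_rfl
  obtain ⟨M₁, J₁, hc1⟩ := cnt_jets m K (e := e + 1) (w := b 0) (by linarith) n (fun i => max (rd i) 0) r
    (fun i _ => le_max_right _ _)
  obtain ⟨M₂, J₂, hc2⟩ := cnt_jet m K 0 (N := N) (w := b 0) (hrd r H.hr le_rfl)
    (show 0 < e + 1 by linarith)
  have lK : 0 ≤ Real.log (4 * ((K : ℝ) + 3) + 3) := Real.log_nonneg (by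
    have : (0 : ℝ) ≤ K := Nat.cast_nonneg K
    linarith)
  obtain ⟨J₃, hJ₃⟩ := exists_nat_ge (r * Real.log (4 * (K + 3) + 3) / h')
  intro K₀
  obtain ⟨K₁, hK₁⟩ : ∃ K₁ : ℕ, K₁ = K₀ + K + M₁ + M₂ := ⟨_, rfl⟩
  refine Bas.mono (max (max J₁ J₂) J₃) ((hctx K₀).and
    ((a3 K₁).and (Pool.GRW.tmc_bas htm one_pos))) ?_
  rintro J hJ F A ⟨HC, HT, hA, -⟩ V z z' g hlb u₀ hu₀
  have hJ1 : J₁ ≤ J := (le_max_left _ _).trans ((le_max_left _ _).trans hJ)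
  have hJ2 : J₂ ≤ J := (le_max_right _ _).trans ((le_max_left _ _).trans hJ)
  have hJ3 : (J₃ : ℝ) ≤ J := by exact_mod_cast (le_max_right _ _).trans hJ
  have hJ0 : (0 : ℝ) ≤ J := Nat.cast_nonneg J
  have f1 : r * Real.log (4 * (K + 3) + 3) ≤ h' * J := by
    have := hJ₃.trans hJ3
    rw [div_le_iff₀ hh0] at this
    linarith
  obtain ⟨q', hq'⟩ : ∃ q' : F.Ω → ℝ, q' = Pool.Agent.H49.Ent.cond F.p A True := ⟨_, rfl⟩
  have hq'l : IsLaw q' := by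
    rw [hq']
    exact isLaw_cond F.isLaw hA
  have h0 := hq'l.nonneg
  have hvJ : ⌊b 0 * J⌋₊ ≤ J := floor_le (hb0.trans (hba.trans ha)) J
  obtain ⟨V₁, z₁, hz₁, h1⟩ := HC V z z' g hlb u₀ hu₀
  obtain ⟨ht, hht⟩ : ∃ ht : F.Ω → ℕ → ℤ, ht = fun ω => hts F c r₀ r z' ⌊b 0 * J⌋₊ g n ω :=
    ⟨_, rfl⟩
  obtain ⟨V₃, z₃, hz₃, h3⟩ := HT (fun ω i j' => if j' = 0 then ht ω i else 0)
    (hgf c r (b 0) N J F V z' g)
    (by
      rw [hht]
      refine (qJets m _ _ _ _ _ _ _).mono ?_ le_rfl (qJets_htx (M := M₁) (Nat.le_succ r) hlb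
        fun i hi0 hi => ?_)
      · exact max_le (by omega) (by omega)
      · exact hc1 i hi J hJ1 F _ _ _ A V z z' (fun v => g v i) (by
          rw [max_eq_left (hrd i hi0 hi.le)]
          exact hlb.wk hi0 (by omega) (hE i hi0 hi.le)))
    ⟨by
      refine (hc2 J hJ2 F _ _ _ A V z z' (fun v => g v r)
        (hlb.wk H.hr (Nat.lt_succ_self r) (hE r H.hr le_rfl))).trans
        (Real.exp_le_exp.2 (mul_le_mul_of_nonneg_right ?_ hJ0))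
      exact_mod_cast (by omega : M₂ ≤ K₁), V, z, z', fun v => g v r,
      (LbP.of (hlb r H.hr (Nat.lt_succ_self r))).mono (Finset.Subset.refl _) (by omega) le_rfl,
      fun ω _ => rfl⟩
  refine ⟨_, fun ω => (z₁ ω, z₃ ω), hz₁.join hz₃, ?_⟩
  rw [← hq'] at h1 h3 ⊢
  obtain ⟨X, hX⟩ : ∃ X : F.Ω → (Fin m → ℤ × ℤ) × (ℕ → ℕ → ℤ),
    X = ctx c r₀ r K (b 0) lam n J F V z' g := ⟨_, rfl⟩
  obtain ⟨Hf, hHf⟩ : ∃ Hf : F.Ω → ℤ, Hf = hgf c r (b 0) N J F V z' g := ⟨_, rfl⟩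
  rw [← hX] at h1
  rw [← hHf] at h3 ⊢
  obtain ⟨Y, hY⟩ : ∃ Y : F.Ω → U₀ × ((V₁ × V₃) × γ J F), Y = fun ω =>
    (u₀ ω, ((z₁ ω, z₃ ω), y J F ω)) := ⟨_, rfl⟩
  rw [← hY]
  have s1 := CH_le_add h0 Hf (fun ω => (X ω, ht ω)) Y
  have s2 := CH_chain h0 ht X Y
  have s3 : CH q' (fun ω => (X ω, ht ω)) Y = CH q' (fun ω => (ht ω, X ω)) Y :=
    CH_congr h0 (fun ω ω' _ _ e => by
      simp only [Prod.mk.injEq] at e ⊢
      tauto) (fun ω ω' _ _ e => by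
      simp only [Prod.mk.injEq] at e ⊢
      tauto) (fun _ _ _ _ e => e) (fun _ _ _ _ e => e)
  have s5 : CH q' ht (fun ω => (X ω, Y ω)) ≤ r * Real.log (4 * (K + 3) + 3) := by
    rw [hht]
    obtain ⟨φ, hφ⟩ := hyT J F
    refine hts_few hvJ (fun l a b v => (hlb l a (by omega)).deg v) hq'l (fun ω => (X ω, Y ω))
      X (Un := ⌊(b 0 + lam) * J⌋₊) (fun ω => by rw [hX]; rfl) fun ω ω' e => ?_
    have e1 := (Prod.ext_iff.mp e).2
    rw [hY] at e1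
    simp only [Prod.mk.injEq] at e1
    exact ⟨by rw [hφ, hφ, e1.2.2], (Prod.ext_iff.mp e).1⟩
  have s6 : CH q' X Y ≤ δ₁ * J := by
    refine le_trans (CH_mono_cond h0 fun ω ω' _ _ e => ?_) h1
    rw [hY] at e
    simp only [Prod.mk.injEq] at e ⊢
    exact ⟨e.1, e.2.1.1, e.2.2⟩
  have s8 : CH q' Hf (fun ω => ((X ω, ht ω), Y ω)) ≤ h' * J := by
    refine le_trans (CH_mono_cond h0 fun ω ω' _ _ e => ?_) h3
    rw [hY] at e
    simp only [Prod.mk.injEq] at e ⊢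
    obtain ⟨⟨e1, e2⟩, e4, ⟨e5, e7⟩, e8⟩ := e
    exact ⟨by rw [e2], e7, e8⟩
  have s9 : δ₂ * J = δ₁ * J + 4 * (h' * J) := by
    rw [hh']
    ring
  have s10 : 0 ≤ h' * J := by positivity
  linarith

end MshX

/-- **All jets of the own path over a chain which is known to few digits only.** -/
theorem path_msh (K : ℕ) {h : ℝ} (hh : 0 < h) (hh1 : h ≤ 1) {ε : ℝ}
    (hε : 0 < ε) : ∃ δ : ℝ, 0 < δ ∧ ∀ {m : ℕ} {S : PCl m} {C₀ : ℝ} (_ : TmC S C₀)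
    {c : ℕ → Fin m} {r₀ r : ℕ} {b : ℕ → ℝ} {M : ℕ} {Pv : ℕ → ℝ → ℝ} {D n : ℕ → ℝ}
    {Ub ρ : ℝ} (_ : MshX S c r₀ r b M Pv D n Ub ρ)
    {q g₀ : ℝ} {E rd N : ℕ → ℝ}
    (_ : ∀ i, r₀ ≤ i → i ≤ r → 0 ≤ E i ∧ E i ≤ 1) (_ : 0 < q) (_ : 0 ≤ Pv r (b 0)) (_ : 0 < g₀)
    (_ : Pv r (b 0) + q + E r + g₀ ≤ 1) (_ : ∀ i, r₀ ≤ i → i ≤ r → 0 ≤ rd i ∧ rd i + g₀ ≤ 1)
    (_ : ∀ i, r₀ ≤ i → i < r → n i + E i + g₀ ≤ 1) (_ : Ub < 1) (_ : b 0 + q ≤ 1)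
    (_ : ∀ i, r₀ ≤ i → i < r → TgtN r₀ i b M Pv D Ub ρ (N i) ∧ N i ≤ n i)
    (_ : TgtN r₀ r b M Pv D Ub ρ (Pv r (b 0) + q))
    (_ : ∑ i ∈ Finset.Ico r₀ r, (Pv i (b M) - N i) ≤ δ * q)
    {U₀ : Type} {Qu : Qt m U₀} {α γ : ∀ J : ℕ, Fam m J → Type}
    {f : ∀ (J : ℕ) (F : Fam m J), F.Ω → α J F} {y : ∀ (J : ℕ) (F : Fam m J), F.Ω → γ J F}
    (_ : ∀ (J : ℕ) (F : Fam m J), ∃ φ : α J F → PtT F, ∀ ω, ptr F J ω = φ (f J F ω))
    (_ : Kn0 ((range r₀).image c) Ub y) {a e₁ : ℝ} (_ : b M ≤ a) (_ : a ≤ 1)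
    (_ : 0 < e₁) (_ : ∀ e : ℝ, 0 < e → e ≤ e₁ →
      FwX S f (vg a) y Qu c r₀ (r + 1) K E (b 0) rd (fun l => Pv l (b 0))
        (ctx c r₀ r K (b 0) (Ub - b 0) n) e (δ * q))
    (_ : ∀ q' : ℝ, 0 ≤ q' → q' ≤ q →
      RawN S ((range r).image c) (c r) (Pv r (b 0)) q' h (δ * q)),
    ∃ e₀ : ℝ, 0 < e₀ ∧ e₀ ≤ e₁ ∧ ∀ e : ℝ, 0 < e → e ≤ e₀ →
      FwX S f (vg a) y Qu c r₀ (r + 1) K E (b 0) rd (fun l => Pv l (b 0))
        (τ := fun _ F V => (V × (F.ζ × ℕ)) × (((Fin m → ℤ × ℤ) × (ℕ → ℕ → ℤ)) × (Fin (K + 3) → ℤ)))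
        (fun J F V z' g ω => ((z' (vg (b 0) J F ω), (vg (b 0) J F ω).2),
          (ctx c r₀ r K (b 0) (Ub - b 0) n J F V z' g ω,
            pth c r K (b 0) (Pv r (b 0) + q) J F V z' g ω))) e (ε * q) := by
  obtain ⟨δ, hδ, H⟩ := path_nsb K hh hh1 hε
  refine ⟨δ / 8, by positivity, ?_⟩
  intro m S C₀ htm c r₀ r b M Pv D n Ub ρ HM q g₀ E rd N hE hq hp0 hg₀ hpq hrd hn1 hU1 hbq hN hNr
    hsum U₀ Qu α γ f y hf hy a e₁ hba ha he₁ hctx hraw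
  have hb0 : b 0 ≤ b M := HM.bmono (Nat.zero_le M) le_rfl
  have hδq : 0 < δ * q := by positivity
  have hρ := HM.ρ0
  have hyT : ∀ (J : ℕ) (F : Fam m J), ∃ φ : γ J F → ℕ, ∀ ω, F.T ω = φ (y J F ω) := by
    intro J F
    obtain ⟨φ, hφ⟩ := hy J F
    exact ⟨fun x => (φ x).1, fun ω => (congrArg Prod.fst (hφ ω)).symm⟩
  have e3 : b 0 + (Ub - b 0) = Ub := by ring
  have hem : 0 < min e₁ (ρ / 8) := lt_min he₁ (by linarith)
  obtain ⟨e₂, he₂, he₂1, HP⟩ := H htm HM.hr (a := a) (q := q) (w := b 0) (lam := Ub - b 0)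
    (n := n) (p := fun l => Pv l (b 0)) HM.b0 (hb0.trans hba) ha hq hbq
    (fun i x y => (hrd i x y).1) (hE r HM.hr le_rfl).2 (Qu := Qu) hf hyT hem
    (fun e h1 h2 => (hctx e h1 (h2.trans (min_le_left _ _))).mono le_rfl (by linarith))
    (fun e h1 h2 => HM.valb htm hba ha hf hy (fun i x y => (hE i x y).2)
      (fun i x y => (hrd i x y).1) h1
      (h2.trans (min_le_right _ _)) hNr (hctx e h1 (h2.trans (min_le_left _ _))) (by linarith))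
    (fun q' h1 h2 => by
      rw [e3]
      exact HM.nfc htm hE h1 h2 hp0 hg₀ hpq hrd hn1 hU1 hN hNr (hraw q' h1 h2) (by linarith))
  exact ⟨e₂, he₂, he₂1.trans (min_le_left _ _), HP⟩

end Pool.AJX
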