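import Pool.Agent.H71.AJX.Jwx
import Pool.Agent.H71.AJX.Msx

/-!
# The codes over any labels, from labels of the chain with gradient exponents
-/

set_option autoImplicit false

namespace Pool.AJX

open Finset Real MvPolynomial
open Pool.Agent.H49.Ent Pool.Agent.H32.Dense Pool.STK Pool.KA Pool.KSAT Pool.K2S Pool.PB Pool.GEN
open Pool.S6C Pool.RCD Pool.LA91 Pool.OWN68 Pool.CHT Pool.AJW
open Pool.GRD (LbP)
open Pool.UNJ (ceI Tub)
open Pool.AVG71 (cod cod_few)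

/-- **From the path over the labels of the chain.** -/
theorem path_F1 (K : ℕ) {m : ℕ} {S : PCl m} {C₀ : ℝ} (htm : TmC S C₀) {c : ℕ → Fin m} {r₀ r : ℕ}
    {v a lam N e δ₁ h' δ₂ : ℝ} {E rd p n : ℕ → ℝ} (hE : ∀ i, r₀ ≤ i → i ≤ r → E i ≤ 1) (hr : r₀ ≤ r) (hv0 : 0 ≤ v) (hva : v ≤ a)
    (ha : a ≤ 1) (he : 0 < e) (hrd : ∀ i, r₀ ≤ i → i ≤ r → 0 ≤ rd i)
    {U₀ U' : Type} {Qu : Qt m U₀} {Q' : Qt m U'} {α γ : ∀ J : ℕ, Fam m J → Type}
    {f : ∀ (J : ℕ) (F : Fam m J), F.Ω → α J F} {y : ∀ (J : ℕ) (F : Fam m J), F.Ω → γ J F}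
    (hyT : ∀ (J : ℕ) (F : Fam m J), ∃ φ : γ J F → ℕ, ∀ ω, F.T ω = φ (y J F ω))
    (hX : FwX S f (vg a) y Qu c r₀ (r + 1) K E v rd p
        (τ := fun _ F V => (V × (F.ζ × ℕ)) × (((Fin m → ℤ × ℤ) × (ℕ → ℕ → ℤ)) × (Fin (K + 3) → ℤ)))
        (fun J F V z' g ω => ((z' (vg v J F ω), (vg v J F ω).2),
          (ctx c r₀ r K v lam n J F V z' g ω, pth c r K v N J F V z' g ω))) e δ₁)
    (hlb : Bas S (fun J F A => ∃ (V : Type) (z : PtT F → V) (z' : LnT F → V)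
      (g : V → ℕ → MvPolynomial (Option (Fin m)) ℝ), LbX F c r₀ (r + 1) K e E v rd p A z z' g))
    {j : ℕ} (hN : F1 S f (vg a) y
      ((qJets m c r₀ r j (fun _ _ => v) (fun l _ => p l)
        (fun l j' => n l - (j' : ℕ) * v)).prod
        (qJets m c r (r + 1) j (fun _ _ => v) (fun l _ => p l)
          (fun _ j' => N - (j' : ℕ) * v))) Q' e h')
    (hδ : δ₁ + h' < δ₂) : F1 S f (vg a) y Qu Q' e δ₂ := by
  classical
  intro K₀
  obtain ⟨MV, JV, hcV⟩ := cnt_jets2 m K (e := e + 1) (w := v) (by linarith) (fun l j => n l - j * v)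
    (fun i => max (rd i) 0) r (j + 1) (fun i _ => le_max_right _ _)
  choose MR JR hcR using fun i : ℕ => cnt_jet m K i (N := N - (i : ℕ) * v) (w := v)
    (hrd r hr le_rfl) (show 0 < e + 1 by linarith)
  choose M₂ hM₂ using fun j : ℕ => jet_path (K + 2) j
  obtain ⟨K₁, hK₁⟩ : ∃ K₁ : ℕ, K₁ = K₀ + K + MV + ∑ i ∈ range (j + 1), MR i := ⟨_, rfl⟩
  obtain ⟨J₁, hJ₁⟩ : ∃ J₁ : ℕ, J₁ = JV + ∑ i ∈ range (j + 1), JR i := ⟨_, rfl⟩
  obtain ⟨L, hL⟩ : ∃ L : ℝ, L = ∑ j ∈ range (j + 1), Real.log (2 * M₂ j + 1) := ⟨_, rfl⟩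
  have hlM : ∀ j, 0 ≤ Real.log (2 * (M₂ j : ℝ) + 1) := fun j => Real.log_nonneg (by
    have : (0 : ℝ) ≤ M₂ j := Nat.cast_nonneg _
    linarith)
  have hL0 : 0 ≤ L := by
    rw [hL]
    exact Finset.sum_nonneg fun j _ => hlM j
  have hLj : ∀ i < j + 1, Real.log (2 * (M₂ i : ℝ) + 1) ≤ L := by
    intro i hi
    rw [hL]
    exact Finset.single_le_sum (f := fun j => Real.log (2 * (M₂ j : ℝ) + 1))
      (fun j _ => hlM j) (Finset.mem_range.2 hi)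
  have hδ0 : 0 < δ₂ - (δ₁ + h') := by linarith
  obtain ⟨J₂, hJ₂⟩ := exists_nat_ge ((r + 1) * (j + 1) * L / (δ₂ - (δ₁ + h')))
  refine Bas.mono (max J₁ J₂) (((hX K₀).and (hN K₁)).and (hlb.and
    (Pool.GRW.tmc_bas htm one_pos))) ?_
  rintro J hJ F A ⟨⟨HPA, HNA⟩, ⟨V, z, z', g, hlb⟩, hA, -⟩ u₀ u' hu₀ hu'
  have hJ1 : J₁ ≤ J := (le_max_left _ _).trans hJ
  have hJ2 : (J₂ : ℝ) ≤ J := by exact_mod_cast (le_max_right _ _).trans hJ
  have hJ0 : (0 : ℝ) ≤ J := Nat.cast_nonneg J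
  have f1 : (r + 1) * (j + 1) * L ≤ (δ₂ - (δ₁ + h')) * J := by
    have := hJ₂.trans hJ2
    rw [div_le_iff₀ hδ0] at this
    linarith
  obtain ⟨q', hq'⟩ : ∃ q' : F.Ω → ℝ, q' = Pool.Agent.H49.Ent.cond F.p A True := ⟨_, rfl⟩
  have hq'l : IsLaw q' := by
    rw [hq']
    exact isLaw_cond F.isLaw hA
  have h0 := hq'l.nonneg
  have hvJ : ⌊v * J⌋₊ ≤ J := floor_le (hva.trans ha) J
  obtain ⟨Va, za, hza, h1⟩ := HPA V z z' g hlb u₀ hu₀
  rw [← hq'] at h1 ⊢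
  obtain ⟨X, hX⟩ : ∃ X : F.Ω → (V × (F.ζ × ℕ)) × (((Fin m → ℤ × ℤ) × (ℕ → ℕ → ℤ)) ×
      (Fin (K + 3) → ℤ)), X = fun ω => ((z' (vg v J F ω), (vg v J F ω).2),
        (ctx c r₀ r K v lam n J F V z' g ω, pth c r K v N J F V z' g ω)) := ⟨_, rfl⟩
  replace h1 : CH q' X (fun ω => (u₀ ω, (za ω, y J F ω))) ≤ δ₁ * J := by
    rw [hX]
    exact h1
  have hlbr := hlb r hr (Nat.lt_succ_self r)
  have hdeg : ∀ l, r₀ ≤ l → l < r + 1 → ∀ v,
      (MvPolynomial.X (some (c l)) - g v l).totalDegree ≤ K + 2 := by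
    intro l x y v
    refine (MvPolynomial.totalDegree_sub _ _).trans (max_le ?_ ?_)
    · exact (totalDegree_X _).le.trans (by omega)
    · exact ((hlb l x y).deg v).trans (by omega)
  -- the jets over `v`
  obtain ⟨uu, huu⟩ : ∃ uu : F.Ω → ℕ → ℕ → ℤ, uu = fun ω (l j' : ℕ) =>
    if r₀ ≤ l ∧ l < r ∧ j' ≤ j then ⌊(2 : ℝ) ^ ((n l - j' * v) * J) *
      ojet F (c l) j' (g (z' (slam F ⌊v * J⌋₊ ω)) l) ω⌋ else 0 := ⟨_, rfl⟩
  obtain ⟨ww, hww⟩ : ∃ ww : F.Ω → ℕ → ℕ → ℤ, ww = fun ω (l j' : ℕ) =>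
    if r ≤ l ∧ l < r + 1 ∧ j' ≤ j then ⌊(2 : ℝ) ^ ((N - j' * v) * J) *
      ojet F (c l) j' (g (z' (slam F ⌊v * J⌋₊ ω)) l) ω⌋ else 0 := ⟨_, rfl⟩
  obtain ⟨Vz, zz, hzz, hCz⟩ : ∃ (V₂ : Type) (z₂ : F.Ω → V₂), Cl2 (f J F) (vg a J F) A z₂ ∧
      CH q' u' (fun ω => ((uu ω, ww ω), (z₂ ω, y J F ω))) ≤ h' * J := by
    have h2 := HNA (fun ω => (uu ω, ww ω)) u' ⟨⟨?_, ?_⟩, ?_⟩ (Q'.mono (by omega) le_rfl hu')
    · rw [← hq'] at h2
      exact h2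
    · intro i x y j' hj'
      have e1 : (fun ω => uu ω i j') = fun ω => ⌊(2 : ℝ) ^ ((n i - j' * v) * J) *
          ojet F (c i) j' (g (z' (slam F ⌊v * J⌋₊ ω)) i) ω⌋ := by
        funext ω
        rw [huu]
        exact if_pos ⟨x, y, hj'⟩
      refine ⟨?_, V, z, z', fun v => g v i, (LbP.of (hlb i x (by omega))).mono
        (Finset.Subset.refl _) (by omega) le_rfl, fun ω _ => by rw [huu]; exact if_pos ⟨x, y, hj'⟩⟩
      show (cnt F.p (fun ω => uu ω i j') A : ℝ) ≤ _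
      rw [e1]
      refine (hcV i y j' (by omega) J (by omega) F _ _ _ A V z z' (fun v => g v i) (by
        rw [max_eq_left (hrd i x y.le)]
        exact hlb.wk x (by omega) (hE i x (by omega)))).trans
        (Real.exp_le_exp.2 (mul_le_mul_of_nonneg_right ?_ hJ0))
      exact_mod_cast (by omega : MV ≤ K₁)
    · intro ω _ i j' hij
      show uu ω i j' = 0
      rw [huu]
      exact if_neg hij
    · refine ⟨fun i x y j' hj' => ?_, fun ω _ i j' hij => ?_⟩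
      · obtain rfl : i = r := by omega
        have e1 : (fun ω => ww ω i j') = fun ω => ⌊(2 : ℝ) ^ ((N - j' * v) * J) *
            ojet F (c i) j' (g (z' (slam F ⌊v * J⌋₊ ω)) i) ω⌋ := by
          funext ω
          rw [hww]
          exact if_pos ⟨x, y, hj'⟩
        have hMj : MR j' ≤ ∑ j ∈ range (j + 1), MR j :=
          Finset.single_le_sum (f := MR) (fun i _ => Nat.zero_le _)
            (Finset.mem_range.2 (by omega))
        have hJj : JR j' ≤ ∑ j ∈ range (j + 1), JR j :=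
          Finset.single_le_sum (f := JR) (fun i _ => Nat.zero_le _)
            (Finset.mem_range.2 (by omega))
        refine ⟨?_, V, z, z', fun v => g v i, (LbP.of hlbr).mono (Finset.Subset.refl _)
          (by omega) le_rfl, fun ω _ => by rw [hww]; exact if_pos ⟨x, y, hj'⟩⟩
        show (cnt F.p (fun ω => ww ω i j') A : ℝ) ≤ _
        rw [e1]
        refine (hcR j' J (by omega) F _ _ _ A V z z' (fun v => g v i)
          (hlb.wk hr (Nat.lt_succ_self i) (hE i hr le_rfl))).trans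
          (Real.exp_le_exp.2 (mul_le_mul_of_nonneg_right ?_ hJ0))
        exact_mod_cast (by omega : MR j' ≤ K₁)
      · show ww ω i j' = 0
        rw [hww]
        exact if_neg hij
  refine ⟨Va × Vz, fun ω => (za ω, zz ω), hza.join hzz, ?_⟩
  obtain ⟨Y, hY⟩ : ∃ Y : F.Ω → U₀ × ((Va × Vz) × γ J F), Y = fun ω =>
    (u₀ ω, ((za ω, zz ω), y J F ω)) := ⟨_, rfl⟩
  rw [← hY]
  obtain ⟨φT, hφT⟩ := hyT J F
  have hT : ∀ ω ω', (X ω, Y ω) = (X ω', Y ω') → F.T ω = F.T ω' := by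
    intro ω ω' e
    have e1 := (Prod.ext_iff.mp e).2
    rw [hY] at e1
    simp only [Prod.mk.injEq] at e1
    rw [hφT, hφT, e1.2.2]
  -- the jets of the chain, from the path
  have k1 : CH q' uu (fun ω => (X ω, Y ω)) ≤ r * (j + 1) * L := by
    refine le_trans (CH_mono_left h0 (X' := fun ω (l : Fin r) (j' : Fin (j + 1)) =>
      uu ω l j') fun ω ω' _ _ e => ?_) ((CH_pis h0 _ _).trans ?_)
    · funext l j'
      by_cases hlj : r₀ ≤ l ∧ l < r ∧ j' ≤ j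
      · exact congrFun (congrFun (Prod.ext_iff.mp e).1 ⟨l, hlj.2.1⟩) ⟨j', by omega⟩
      · rw [huu]
        show (if r₀ ≤ l ∧ l < r ∧ j' ≤ j then _ else (0 : ℤ)) =
          if r₀ ≤ l ∧ l < r ∧ j' ≤ j then _ else (0 : ℤ)
        rw [if_neg hlj, if_neg hlj]
    · have h2 : ∀ l ∈ (univ : Finset (Fin r)), CH q' (fun ω (j' : Fin (j + 1)) => uu ω l j')
          (fun ω => (X ω, Y ω)) ≤ (j + 1) * L := by
        intro l _
        refine (CH_pis h0 _ _).trans ?_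
        have h3 : ∀ j' ∈ (univ : Finset (Fin (j + 1))), CH q' (fun ω => uu ω l j')
            (fun ω => (X ω, Y ω)) ≤ L := by
          intro j' _
          by_cases hlj : r₀ ≤ (l : ℕ) ∧ (l : ℕ) < r ∧ (j' : ℕ) ≤ j
          · have e1 : (fun ω => uu ω l j') = fun ω =>
                ⌊(2 : ℝ) ^ ((n l - (j' : ℕ) * v) * J) *
                  ojet F (c l) j' (g (z' (slam F ⌊v * J⌋₊ ω)) l) ω⌋ := by
              funext ω
              rw [huu]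
              exact if_pos hlj
            rw [e1]
            refine (hM₂ j' hv0 hvJ (s := n l) (κ := c l) (z' := z') (G := fun v => g v l)
              (hdeg l hlj.1 (by omega)) hq'l (fun ω => (X ω, Y ω))
              fun ω ω' _ _ e => ⟨hT ω ω' e, fun i hi => ?_⟩).trans (hLj j' j'.2)
            have e2 := (Prod.ext_iff.mp e).1
            rw [hX] at e2
            simp only [Prod.mk.injEq] at e2
            have e3 := congrFun (congrFun (Prod.ext_iff.mp e2.2.1).2 l) i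
            dsimp only [ctx, ctxN] at e3
            rw [if_pos ⟨⟨hlj.1, hlj.2.1⟩, by omega⟩, if_pos ⟨⟨hlj.1, hlj.2.1⟩, by omega⟩] at e3
            exact e3
          · refine le_trans (le_of_eq (CH_eq_zero h0 fun ω ω' _ _ _ => ?_)) hL0
            rw [huu]
            show (if r₀ ≤ (l : ℕ) ∧ (l : ℕ) < r ∧ (j' : ℕ) ≤ j then _ else (0 : ℤ)) =
              if r₀ ≤ (l : ℕ) ∧ (l : ℕ) < r ∧ (j' : ℕ) ≤ j then _ else (0 : ℤ)
            rw [if_neg hlj, if_neg hlj]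
        refine (Finset.sum_le_sum h3).trans (le_of_eq ?_)
        rw [Finset.sum_const, Finset.card_univ, Fintype.card_fin, nsmul_eq_mul]
        push_cast
        ring
      refine (Finset.sum_le_sum h2).trans (le_of_eq ?_)
      rw [Finset.sum_const, Finset.card_univ, Fintype.card_fin, nsmul_eq_mul]
      ring
  have k2 : CH q' ww (fun ω => (X ω, Y ω)) ≤ (j + 1) * L := by
    refine le_trans (CH_mono_left h0 (X' := fun ω (j' : Fin (j + 1)) =>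
      ww ω r j') fun ω ω' _ _ e => ?_) ((CH_pis h0 _ _).trans ?_)
    · funext l j'
      by_cases hlj : r ≤ l ∧ l < r + 1 ∧ j' ≤ j
      · obtain rfl : l = r := by omega
        exact congrFun (Prod.ext_iff.mp e).1 ⟨j', by omega⟩
      · rw [hww]
        show (if r ≤ l ∧ l < r + 1 ∧ j' ≤ j then _ else (0 : ℤ)) =
          if r ≤ l ∧ l < r + 1 ∧ j' ≤ j then _ else (0 : ℤ)
        rw [if_neg hlj, if_neg hlj]
    · have h3 : ∀ j' ∈ (univ : Finset (Fin (j + 1))), CH q' (fun ω => ww ω r j')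
          (fun ω => (X ω, Y ω)) ≤ L := by
        intro j' _
        have e1 : (fun ω => ww ω r j') = fun ω =>
            ⌊(2 : ℝ) ^ ((N - (j' : ℕ) * v) * J) *
              ojet F (c r) j' (g (z' (slam F ⌊v * J⌋₊ ω)) r) ω⌋ := by
          funext ω
          rw [hww]
          exact if_pos ⟨le_rfl, Nat.lt_succ_self r, by omega⟩
        rw [e1]
        refine (hM₂ j' hv0 hvJ (s := N) (κ := c r) (z' := z') (G := fun v => g v r)
          (hdeg r hr (Nat.lt_succ_self r)) hq'l (fun ω => (X ω, Y ω))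
          fun ω ω' _ _ e => ⟨hT ω ω' e, fun i hi => ?_⟩).trans (hLj j' j'.2)
        have e2 := (Prod.ext_iff.mp e).1
        rw [hX] at e2
        simp only [Prod.mk.injEq] at e2
        exact congrFun e2.2.2 ⟨i, by omega⟩
      refine (Finset.sum_le_sum h3).trans (le_of_eq ?_)
      rw [Finset.sum_const, Finset.card_univ, Fintype.card_fin, nsmul_eq_mul]
      push_cast
      ring
  have k4 : CH q' X Y ≤ δ₁ * J := by
    refine le_trans (CH_mono_cond h0 fun ω ω' _ _ e => ?_) h1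
    rw [hY] at e
    simp only [Prod.mk.injEq] at e ⊢
    exact ⟨e.1, e.2.1.1, e.2.2⟩
  have g1 := CH_le_add h0 u' (fun ω => (uu ω, ww ω)) (fun ω => (X ω, Y ω))
  have g2 := CH_subadd h0 uu ww (fun ω => (X ω, Y ω))
  have g3 : CH q' u' (fun ω => ((uu ω, ww ω), (X ω, Y ω))) ≤ h' * J := by
    refine le_trans (CH_mono_cond h0 fun ω ω' _ _ e => ?_) hCz
    rw [hY] at e
    simp only [Prod.mk.injEq] at e ⊢
    exact ⟨e.1, e.2.2.2.1.2, e.2.2.2.2⟩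
  have g6 := CH_le_add h0 u' X Y
  have g7 : (r + 1) * (j + 1) * L = r * (j + 1) * L + (j + 1) * L := by ring
  have g8 : (δ₂ - (δ₁ + h')) * J = δ₂ * J - δ₁ * J - h' * J := by ring
  linarith

/-- **All jets of the target over labels of precision `≥ Pv r (b 0) - φ`**, from a context. -/
theorem jt_Q (K : ℕ) {h : ℝ} (hh : 0 < h) (hh1 : h ≤ 1) {ε : ℝ}
    (hε : 0 < ε) : ∃ δ : ℝ, 0 < δ ∧ ∀ {m : ℕ} {S : PCl m} {C₀ : ℝ} (_ : TmC S C₀)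
    {c : ℕ → Fin m} {r₀ r : ℕ} {b : ℕ → ℝ} {M : ℕ} {Pv : ℕ → ℝ → ℝ} {D n : ℕ → ℝ}
    {Ub ρ : ℝ} (_ : MshX S c r₀ r b M Pv D n Ub ρ)
    {q g₀ : ℝ} {E rd N : ℕ → ℝ}
    (_ : ∀ i, r₀ ≤ i → i ≤ r → 0 ≤ E i ∧ E i ≤ 1) (_ : 0 < q) (_ : 0 ≤ Pv r (b 0)) (_ : 0 < g₀)
    (_ : Pv r (b 0) + q + E r + g₀ ≤ 1) (_ : ∀ i, r₀ ≤ i → i ≤ r → 0 ≤ rd i ∧ rd i + g₀ ≤ 1)
    (_ : ∀ i, r₀ ≤ i → i < r → n i + E i + g₀ ≤ 1) (_ : Ub < 1) (_ : b 0 + q ≤ 1)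
    (_ : ∀ i, r₀ ≤ i → i < r → TgtN r₀ i b M Pv D Ub ρ (N i) ∧ N i ≤ n i)
    (_ : TgtN r₀ r b M Pv D Ub ρ (Pv r (b 0) + q))
    (_ : ∑ i ∈ Finset.Ico r₀ r, (Pv i (b M) - N i) ≤ δ * q)
    {lv : ℕ → ℝ} {σ₀ φ : ℝ} (_ : TwoN r₀ r (b 0) Ub σ₀ (fun l => Pv l (b 0)) n lv)
    (_ : 0 ≤ φ) (_ : φ < σ₀) (_ : q + σ₀ ≤ Ub - b 0) (_ : ∀ l, r₀ ≤ l → l < r → q + σ₀ ≤ lv l)
    {U₀ : Type} {Qu : Qt m U₀} {α γ : ∀ J : ℕ, Fam m J → Type}
    {f : ∀ (J : ℕ) (F : Fam m J), F.Ω → α J F} {y : ∀ (J : ℕ) (F : Fam m J), F.Ω → γ J F}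
    (_ : ∀ (J : ℕ) (F : Fam m J), ∃ φ : α J F → PtT F, ∀ ω, ptr F J ω = φ (f J F ω))
    (_ : Kn ((range r₀).image c) Ub (Ub - b 0) y) {a e₁ : ℝ} (_ : b M ≤ a) (_ : a ≤ 1)
    (_ : 0 < e₁) (_ : ∀ e : ℝ, 0 < e → e ≤ e₁ →
      FwX S f (vg a) y Qu c r₀ (r + 1) K E (b 0) rd (fun l => Pv l (b 0))
        (ctx c r₀ r K (b 0) (Ub - b 0) n) e (δ * q))
    (_ : ∀ q' : ℝ, 0 ≤ q' → q' ≤ q →
      RawN S ((range r).image c) (c r) (Pv r (b 0)) q' h (δ * q))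
    (_ : ∀ e : ℝ, 0 < e → Bas S (fun J F A => ∃ (V : Type) (z : PtT F → V) (z' : LnT F → V)
      (g : V → ℕ → MvPolynomial (Option (Fin m)) ℝ),
      LbX F c r₀ (r + 1) K e E (b 0) rd (fun l => Pv l (b 0)) A z z' g)),
    ∃ e₀ : ℝ, 0 < e₀ ∧ e₀ ≤ e₁ ∧ ∀ e : ℝ, 0 < e → e ≤ e₀ → ∀ (Jm : ℕ) (Pt : ℝ),
      Pv r (b 0) - φ ≤ Pt → F1 S f (vg a) y Qu (qJets m c r (r + 1) Jm (fun _ _ => b 0)
        (fun _ _ => Pt) (fun _ j => Pv r (b 0) + q - (j : ℕ) * b 0)) e (ε * q) := by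
  classical
  obtain ⟨δ, hδ, H⟩ := path_msh K hh hh1 (ε := ε / 2) (by positivity)
  refine ⟨δ, hδ, ?_⟩
  intro m S C₀ htm c r₀ r b M Pv D n Ub ρ HM q g₀ E rd N hE hq hp0 hg₀ hpq hrd hn1 hU1 hbq hN hNr
    hsum lv σ₀ φ HT hφ0 hφ hqU hqlv U₀ Qu α γ f y hf hy a e₁ hba ha he₁ hctx hraw hlb
  have hb0 : b 0 ≤ b M := HM.bmono (Nat.zero_le M) le_rfl
  have hbU : b 0 < Ub := lt_of_le_of_lt hb0 HM.bU
  have e3 : b 0 + (Ub - b 0) = Ub := by ring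
  have hy0 : Kn0 ((range r₀).image c) Ub y := by
    intro J F
    obtain ⟨φ, hφ⟩ := hy J F
    exact ⟨fun x => ((φ x).1, (φ x).2.1), fun ω => by
      show ((φ (y J F ω)).1, (φ (y J F ω)).2.1) = _
      rw [hφ ω]⟩
  have hyT : ∀ (J : ℕ) (F : Fam m J), ∃ φ : γ J F → ℕ, ∀ ω, F.T ω = φ (y J F ω) := by
    intro J F
    obtain ⟨φ, hφ⟩ := hy J F
    exact ⟨fun x => (φ x).1, fun ω => (congrArg Prod.fst (hφ ω)).symm⟩
  obtain ⟨u₁, rw₀, hch, hrw₀⟩ := HM.chn 0 (Nat.zero_le M)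
  obtain ⟨e₀, he₀, he₀1, HP⟩ := H htm HM hE hq hp0 hg₀ hpq hrd hn1 hU1 hbq hN hNr hsum
    (Qu := Qu) (f := f) (y := y) (a := a) (e₁ := e₁) hf hy0 hba ha he₁ hctx hraw
  refine ⟨min e₀ ((σ₀ - φ) / 8), lt_min he₀ (by linarith), (min_le_left _ _).trans he₀1,
    fun e he hle Jm Pt hPt => ?_⟩
  have hle0 : e ≤ e₀ := hle.trans (min_le_left _ _)
  have hle1 : e ≤ (σ₀ - φ) / 8 := hle.trans (min_le_right _ _)
  refine path_F1 K htm (fun i x y => (hE i x y).2) HM.hr HM.b0 (hb0.trans hba) ha he (fun i x y => (hrd i x y).1) hyT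
    (HP e he hle0) (hlb e he) (j := Jm) (h' := ε / 4 * q)
    ((F1.pull htm (fun u => u) ?_ (tgt_jets_r (P := Pv r (b 0)) htm hch (hb0.trans hba) ha
      (by linarith) (by linarith) hφ0 hφ hPt HT.lv0 HT.h1 HT.h2 HT.h3 (by linarith)
      (fun l x y => by linarith [hqlv l x y]) hf (by rw [e3]; exact hy) Jm
      (h := ε / 4 * q) (by positivity))).mono hle1 le_rfl) (by nlinarith)
  intro K e J F A u hu
  refine ⟨hu.1, fun i x y j' hj' => ?_, hu.2.2⟩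
  have h1 := hu.2.1 i x y j' hj'
  obtain rfl : i = r := by omega
  exact h1

/-- **The codes of order `≥ 1`** of the own path over labels of the window `w` of any precision
`P₂ ≥ p r` and complexity `K' ≤ K`. -/
theorem d_cls_p (K : ℕ) {h : ℝ} (hh : 0 < h) (hh1 : h ≤ 1) {ε : ℝ}
    (hε : 0 < ε) : ∃ δ : ℝ, 0 < δ ∧ ∀ {m : ℕ} {S : PCl m} {C₀ : ℝ} (_ : TmC S C₀)
    {c : ℕ → Fin m} {r₀ r : ℕ} {v w lam q ρ g₀ : ℝ} {E p s n lv rd : ℕ → ℝ}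
    (_ : JetX S c r₀ r v w lam q ρ g₀ E p s n lv rd K) (_ : (r + 1) * ρ ≤ δ * q)
    {U₀ : Type} {Qu : Qt m U₀} {α γ : ∀ J : ℕ, Fam m J → Type}
    {f : ∀ (J : ℕ) (F : Fam m J), F.Ω → α J F} {y : ∀ (J : ℕ) (F : Fam m J), F.Ω → γ J F}
    (_ : ∀ (J : ℕ) (F : Fam m J), ∃ φ : α J F → PtT F, ∀ ω, ptr F J ω = φ (f J F ω))
    (_ : Kn ((range r₀).image c) (v + lam) lam y) {a e₁ : ℝ} (_ : w ≤ a) (_ : a ≤ 1)
    (_ : 0 < e₁) (_ : ∀ e : ℝ, 0 < e → e ≤ e₁ →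
      FwX S f (vg a) y Qu c r₀ (r + 1) K E v rd p (ctx c r₀ r K v lam n) e (δ * q))
    (_ : ∀ q' : ℝ, 0 ≤ q' → q' ≤ q → RawN S ((range r).image c) (c r) (p r) q' h (δ * q))
    (_ : ∀ e : ℝ, 0 < e → Bas S (fun J F A => ∃ (V : Type) (z : PtT F → V) (z' : LnT F → V)
      (g : V → ℕ → MvPolynomial (Option (Fin m)) ℝ), LbX F c r₀ (r + 1) K e E v rd p A z z' g))
    {N : ℝ} (_ : N ≤ p r + q + (w - v)),
    ∃ e₀ : ℝ, 0 < e₀ ∧ e₀ ≤ e₁ ∧ ∀ e : ℝ, 0 < e → e ≤ e₀ → ∀ (K₀ K' : ℕ) (P₂ Ec : ℝ),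
      K' ≤ K → p r ≤ P₂ →
      Bas S (fun J F A => ∀ u₀ : F.Ω → U₀, Qu.P K₀ e J F A u₀ →
        ∀ (V : Type) (z : PtT F → V) (z' : LnT F → V)
        (G : V → MvPolynomial (Option (Fin m)) ℝ), LbP F ((range r).image c) (c r) K'
          J ⌊w * J⌋₊ ⌊(P₂ - e) * J⌋₊ A z z' G → CfB F ⌊w * J⌋₊ Ec (c r) A z' G →
        ∃ (V₁ : Type) (z₁ : F.Ω → V₁), Cl2 (f J F) (vg a J F) A z₁ ∧
          ∀ σ : ℝ, 0 < σ → σ ≤ 2 ^ (N * J) →
          CH (Pool.Agent.H49.Ent.cond F.p A True)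
            (cod F ⌊w * J⌋₊ 1 (K' + 1) σ (c r) z' G)
            (fun ω => (u₀ ω, (z₁ ω, y J F ω))) ≤ ε * q * J) := by
  classical
  obtain ⟨δ, hδ, H⟩ := jet_wc K hh hh1 (ε := ε / 2) (by positivity)
  refine ⟨δ, hδ, ?_⟩
  intro m S C₀ htm c r₀ r v w lam q ρ g₀ E p s n lv rd HW hρδ U₀ Qu α γ f y hf hy a e₁ hwa ha he₁
    hctx hraw hlb N hN
  have hq := HW.q0
  have hv0 := HW.v0
  have hvw := HW.vw
  have hw0 : 0 ≤ w := hv0.trans hvw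
  have hyT : ∀ (J : ℕ) (F : Fam m J), ∃ φ : γ J F → ℕ, ∀ ω, F.T ω = φ (y J F ω) := by
    intro J F
    obtain ⟨φ, hφ⟩ := hy J F
    exact ⟨fun x => (φ x).1, fun ω => (congrArg Prod.fst (hφ ω)).symm⟩
  obtain ⟨e₀, he₀, he₀1, HP⟩ := H htm HW hρδ hf hy hwa ha he₁ hctx hraw
  refine ⟨e₀, he₀, he₀1, fun e he hle K₀ K' P₂ Ec hK' hP₂ => ?_⟩
  -- the number of values of the jets
  choose MR JR hcR using fun j : ℕ => cnt_cfb m K' (j + 1)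
    (N := p r + q - ((j + 1 : ℕ) : ℝ) * v) (w := w) (E := Ec) hw0 (hwa.trans ha)
  obtain ⟨K₁, hK₁⟩ : ∃ K₁ : ℕ, K₁ = K₀ + K + ∑ j ∈ range (K + 2), MR j := ⟨_, rfl⟩
  obtain ⟨J₁, hJ₁⟩ : ∃ J₁ : ℕ, J₁ = ∑ j ∈ range (K + 2), JR j := ⟨_, rfl⟩
  obtain ⟨L', hL'⟩ : ∃ L' : ℝ, L' = ((K' + 1 + 1 : ℕ) : ℝ) *
    Real.log (2 * (2 ^ (2 * (K' + 1) + 1) + 1) + 1) := ⟨_, rfl⟩
  obtain ⟨J₂, hJ₂⟩ := exists_nat_ge (L' / (ε / 2 * q))
  refine Bas.mono (max J₁ J₂) (((HP e he hle).2 K₁ P₂ hP₂).and ((hlb e he).and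
    (Pool.GRW.tmc_bas htm one_pos))) ?_
  rintro J hJ F A ⟨HPA, ⟨V', zz, zz', gg, hlbv⟩, hA, -⟩ u₀ hu₀ V z z' G hl hcf
  have hJ1 : J₁ ≤ J := (le_max_left _ _).trans hJ
  have hJ2 : (J₂ : ℝ) ≤ J := by exact_mod_cast (le_max_right _ _).trans hJ
  have hJ0 : (0 : ℝ) ≤ J := Nat.cast_nonneg J
  have f1 : L' ≤ ε / 2 * q * J := by
    have := hJ₂.trans hJ2
    rw [div_le_iff₀ (by positivity)] at this
    linarith
  obtain ⟨u', hu'⟩ : ∃ u' : F.Ω → Fin (K + 2) → ℤ, u' = fun ω (j : Fin (K + 2)) =>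
    ⌊(2 : ℝ) ^ ((p r + q - (((j : ℕ) + 1 : ℕ) : ℝ) * v) * J) *
      ojet F (c r) ((j : ℕ) + 1) (G (z' (slam F ⌊w * J⌋₊ ω))) ω⌋ := ⟨_, rfl⟩
  obtain ⟨V₁, z₁, hz₁, h1⟩ := HPA V' zz zz' gg hlbv u₀
    (Qu.mono (by omega) le_rfl hu₀) u' (fun j => by
      have hj2 := j.2
      have hMj : MR j ≤ ∑ j ∈ range (K + 2), MR j :=
        Finset.single_le_sum (f := MR) (fun i _ => Nat.zero_le _) (Finset.mem_range.2 hj2)
      have hJj : JR j ≤ ∑ j ∈ range (K + 2), JR j :=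
        Finset.single_le_sum (f := JR) (fun i _ => Nat.zero_le _) (Finset.mem_range.2 hj2)
      refine ⟨?_, V, z, z', G, hl.mono (Finset.Subset.refl _) (by omega) le_rfl,
        fun ω _ => by rw [hu']⟩
      show (cnt F.p (fun ω => u' ω j) A : ℝ) ≤ _
      rw [hu']
      refine (hcR j J (by omega) F _ A V z' G hl.deg hcf).trans
        (Real.exp_le_exp.2 (mul_le_mul_of_nonneg_right ?_ hJ0))
      exact_mod_cast (by omega : MR j ≤ K₁))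
  refine ⟨V₁, z₁, hz₁, fun σ hσ0 hσ => ?_⟩
  obtain ⟨q', hq'⟩ : ∃ q' : F.Ω → ℝ, q' = Pool.Agent.H49.Ent.cond F.p A True := ⟨_, rfl⟩
  have hq'l : IsLaw q' := by
    rw [hq']
    exact isLaw_cond F.isLaw hA
  have h0 := hq'l.nonneg
  rw [← hq'] at h1 ⊢
  have hWJ : ⌊w * J⌋₊ ≤ J := floor_le (hwa.trans ha) J
  obtain ⟨Y, hY⟩ : ∃ Y : F.Ω → U₀ × (V₁ × γ J F), Y = fun ω =>
    (u₀ ω, (z₁ ω, y J F ω)) := ⟨_, rfl⟩
  rw [← hY] at h1 ⊢
  obtain ⟨φT, hφT⟩ := hyT J F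
  have k1 : CH q' u' Y ≤ ε / 2 * q * J := by
    refine le_trans (CH_mono_left h0 fun ω ω' _ _ e => ?_) h1
    exact (Prod.ext_iff.mp (Prod.ext_iff.mp e).1).2
  have k2 : CH q' (cod F ⌊w * J⌋₊ 1 (K' + 1) σ (c r) z' G) (fun ω => (u' ω, Y ω)) ≤ L' := by
    rw [hL']
    refine cod_few (w := w) (N := N) hw0 hWJ hσ0 hσ (fun v => ?_) hq'l
      (fun ω => (u' ω, Y ω)) 1 (s := fun j => p r + q - (j : ℕ) * v) (fun j hj _ => ?_)
      fun ω ω' _ _ e => ⟨?_, fun j hj hj' => ?_⟩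
    · exact Nat.succ_le_succ (hl.deg v)
    · have h2 : (1 : ℝ) ≤ j := by exact_mod_cast hj
      have h3 : 1 * (w - v) ≤ j * (w - v) := mul_le_mul_of_nonneg_right h2 (by linarith)
      show N - j * w ≤ p r + q - j * v
      linarith
    · have e1 := (Prod.ext_iff.mp e).2
      rw [hY] at e1
      simp only [Prod.mk.injEq] at e1
      rw [hφT, hφT, e1.2.2]
    · have e2 := congrFun (Prod.ext_iff.mp e).1 ⟨j - 1, by omega⟩
      rw [hu'] at e2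
      have e3 : j - 1 + 1 = j := by omega
      dsimp only at e2
      rw [e3] at e2
      exact e2
  have s1 := CH_le_add h0 (cod F ⌊w * J⌋₊ 1 (K' + 1) σ (c r) z' G) u' Y
  have e4 : ε * q * J = ε / 2 * q * J + ε / 2 * q * J := by ring
  rw [e4]
  linarith


end Pool.AJX
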