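import Pool.Agent.H71.AJX.Nfx

/-!
# The context is few bits, for labels with gradient exponents
-/

set_option autoImplicit false

namespace Pool.AJX

open Finset Real MvPolynomial
open Pool.Agent.H49.Ent Pool.Agent.H32.Dense Pool.STK Pool.KA Pool.KSAT Pool.K2S Pool.PB Pool.GEN
open Pool.S6C Pool.RCD Pool.LA91 Pool.OWN68 Pool.CHT Pool.AJW
open Pool.GRD (LbP)
open Pool.UNJ (ceI Tub)

/-- **The context is few bits**, jets up to order `K + 2` only. -/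
theorem ctxK_few {m : ℕ} {S : PCl m} {C₀ : ℝ} (htm : TmC S C₀) {c : ℕ → Fin m} {r₀ r : ℕ}
    {w a lam e δ₁ δ₂ : ℝ} {E rd p n : ℕ → ℝ} (hE : ∀ i, r₀ ≤ i → i < r → E i ≤ 1) (hw0 : 0 ≤ w) (hwa : w ≤ a) (ha : a ≤ 1)
    (hlam : 0 ≤ lam) (he : 0 < e) (hrd : ∀ i, r₀ ≤ i → i < r → 0 ≤ rd i)
    {U : Type} {Q : Qt m U} {α γ : ∀ J : ℕ, Fam m J → Type}
    {f : ∀ (J : ℕ) (F : Fam m J), F.Ω → α J F} {y : ∀ (J : ℕ) (F : Fam m J), F.Ω → γ J F}
    (hy : Kn ((range r₀).image c) (w + lam) lam y)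
    (K : ℕ) {η : ℕ → ℕ → ℝ}
    (hη : ∑ l ∈ Finset.Ico r₀ r, ∑ j ∈ range (K + 3), η l j ≤ δ₁)
    (hF : ∀ l, r₀ ≤ l → l < r → ∀ j < K + 3, F1 S f (vg a) y Q
      (qJet m ((range l).image c) (c l) j w (p l) (n l - j * w)) e (η l j)) (hδ : δ₁ < δ₂)
    (K₀ R : ℕ) (hR : r ≤ R) :
    Bas S (fun J F A => ∀ (V : Type) (z : PtT F → V) (z' : LnT F → V)
      (g : V → ℕ → MvPolynomial (Option (Fin m)) ℝ), LbX F c r₀ R K e E w rd p A z z' g →
      ∀ u₀ : F.Ω → U, Q.P K₀ e J F A u₀ →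
      ∃ (V₁ : Type) (z₁ : F.Ω → V₁), Cl2 (f J F) (vg a J F) A z₁ ∧
        CH (Pool.Agent.H49.Ent.cond F.p A True)
          (fun ω => ctxN F c r₀ r ⌊w * J⌋₊ ⌊(w + lam) * J⌋₊ K z' g n (vg w J F ω))
          (fun ω => (u₀ ω, (z₁ ω, y J F ω))) ≤ δ₂ * J) := by
  classical
  obtain ⟨C, hC, Hjr⟩ := jr_few (K + 2)
  obtain ⟨M, J₁, hcnt⟩ := cnt_jets2 m K (e := e + 1) (w := w) (by linarith) (fun l j => n l - j * w)
    (fun i => max (rd i) 0) r (K + 3) (fun i _ => le_max_right _ _)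
  have l7 : 0 ≤ Real.log 7 := Real.log_nonneg (by norm_num)
  have hm0 : (0 : ℝ) ≤ m := Nat.cast_nonneg m
  have hr0 : (0 : ℝ) ≤ r := Nat.cast_nonneg r
  have hδ' : 0 < δ₂ - δ₁ := by linarith
  obtain ⟨J₂, hJ₂⟩ := exists_nat_ge ((m * (2 * Real.log 7) + r * C) / (δ₂ - δ₁))
  have hFa : Bas S (fun J F A => ∀ l < r, ∀ j < K + 3, r₀ ≤ l → ∀ (u : F.Ω → U) (u' : F.Ω → ℤ),
      Q.P (max K₀ (max K M)) e J F A u →
      (qJet m ((range l).image c) (c l) j w (p l) (n l - j * w)).P (max K₀ (max K M)) e J F A u' →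
      ∃ (V : Type) (z : F.Ω → V), Cl2 (f J F) (vg a J F) A z ∧
        CH (Pool.Agent.H49.Ent.cond F.p A True) u'
          (fun ω => (u ω, (z ω, y J F ω))) ≤ η l j * J) := by
    refine Bas.all r fun l hl => Bas.all (K + 3) fun j hj => ?_
    by_cases hl0 : r₀ ≤ l
    · refine Bas.mono 0 (hF l hl0 hl j hj (max K₀ (max K M))) ?_
      intro J _ F A h _
      exact h
    · refine ⟨1, one_pos, 0, fun J _ F A _ h => absurd h hl0⟩
  refine Bas.mono (max J₁ J₂) (hFa.and (Pool.GRW.tmc_bas htm one_pos)) ?_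
  rintro J hJ F A ⟨HF, hA, -⟩ V z z' g hlb u₀ hu₀
  have hJ1 : J₁ ≤ J := (le_max_left _ _).trans hJ
  have hJ2 : (J₂ : ℝ) ≤ J := by exact_mod_cast (le_max_right _ _).trans hJ
  have hJ0 : (0 : ℝ) ≤ J := Nat.cast_nonneg J
  have f1 : m * (2 * Real.log 7) + r * C ≤ (δ₂ - δ₁) * J := by
    have := hJ₂.trans hJ2
    rw [div_le_iff₀ hδ'] at this
    linarith
  obtain ⟨q', hq'⟩ : ∃ q' : F.Ω → ℝ, q' = Pool.Agent.H49.Ent.cond F.p A True := ⟨_, rfl⟩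
  have hq'l : IsLaw q' := by
    rw [hq']
    exact isLaw_cond F.isLaw hA
  have h0 := hq'l.nonneg
  rw [← hq']
  have hWJ : ⌊w * J⌋₊ ≤ J := floor_le (hwa.trans ha) J
  obtain ⟨Uj, hUj⟩ : ∃ Uj : ℕ → ℕ → F.Ω → ℤ, Uj = fun (l j : ℕ) ω =>
    ⌊(2 : ℝ) ^ ((n l - j * w) * J) * ojet F (c l) j (g (z' (slam F ⌊w * J⌋₊ ω)) l) ω⌋ :=
    ⟨_, rfl⟩
  have hz : ∀ l j, ∃ (V₁ : Type) (z₁ : F.Ω → V₁), Cl2 (f J F) (vg a J F) A z₁ ∧
      (r₀ ≤ l → l < r → j < K + 3 → CH q' (Uj l j) (fun ω => (u₀ ω, (z₁ ω, y J F ω))) ≤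
        η l j * J) := by
    intro l j
    by_cases hlj : r₀ ≤ l ∧ l < r ∧ j < K + 3
    · obtain ⟨hl0, hl, hj⟩ := hlj
      have h1 := HF l hl j hj hl0 u₀ (Uj l j)
        (Q.mono (le_max_left _ _) le_rfl hu₀) ⟨?_, V, z, z', fun v => g v l, ?_, fun ω _ => by
          rw [hUj]⟩
      · rw [← hq'] at h1
        obtain ⟨V₁, z₁, hz₁, h1⟩ := h1
        exact ⟨V₁, z₁, hz₁, fun _ _ _ => h1⟩
      · have h2 := hcnt l hl j hj J hJ1 F _ _ _ A V z z' (fun v => g v l) (by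
          rw [max_eq_left (hrd l hl0 hl)]
          exact hlb.wk hl0 (by omega) (hE l hl0 hl))
        rw [hUj]
        refine h2.trans (Real.exp_le_exp.2 (mul_le_mul_of_nonneg_right ?_ hJ0))
        exact_mod_cast (le_max_right _ _).trans (le_max_right _ _)
      · exact (LbP.of (hlb l hl0 (by omega))).mono (Finset.Subset.refl _)
          ((le_max_left _ _).trans (le_max_right _ _)) le_rfl
    · exact ⟨Unit, fun _ => (), ⟨⟨fun _ => (), fun _ _ => rfl⟩, fun _ => (), fun _ _ => rfl⟩,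
        fun a b c => absurd ⟨a, b, c⟩ hlj⟩
  choose V₁ z₁ hz₁ hH₁ using hz
  refine ⟨∀ l j, V₁ l j, fun ω l j => z₁ l j ω, Cl2.pi fun l => Cl2.pi (hz₁ l), ?_⟩
  obtain ⟨Y, hY⟩ : ∃ Y : F.Ω → U × ((∀ l j, V₁ l j) × γ J F), Y = fun ω =>
    (u₀ ω, ((fun l j => z₁ l j ω), y J F ω)) := ⟨_, rfl⟩
  rw [← hY]
  obtain ⟨φ, hφ⟩ := hy J F
  have hyy : ∀ ω ω', y J F ω = y J F ω' → F.T ω = F.T ω' ∧
      (∀ i ∈ (range r₀).image c, F.X ⌊(w + lam) * J⌋₊ ω i = F.X ⌊(w + lam) * J⌋₊ ω' i) ∧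
      ∀ i ∈ (range r₀).image c, F.D ⌊lam * J⌋₊ ω i = F.D ⌊lam * J⌋₊ ω' i := by
    intro ω ω' e1
    have e2 := congrArg φ e1
    rw [hφ, hφ] at e2
    simp only [Prod.mk.injEq] at e2
    refine ⟨e2.1, fun i hi => ?_, fun i hi => ?_⟩
    · have := congrFun e2.2.1 i
      simpa only [if_pos hi] using this
    · have := congrFun e2.2.2 i
      simpa only [if_pos hi] using this
  -- the base
  have b1 : CH q' (fun ω => cV0 ((range r₀).image c) ⌊w * J⌋₊ ⌊(w + lam) * J⌋₊ F (vg w J F ω)) Y ≤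
      m * (2 * Real.log 7) := by
    refine cV0_few hq'l _ hWJ (n := ⌊(w + lam) * J⌋₊) (l := ⌊lam * J⌋₊) ?_ Y (fun ω ω' e => ?_)
    · have g1 : ((⌊(w + lam) * J⌋₊ : ℕ) : ℝ) ≤ (w + lam) * J :=
        Nat.floor_le (mul_nonneg (by linarith) hJ0)
      have g2 := Nat.lt_floor_add_one (w * J)
      have g3 := Nat.lt_floor_add_one (lam * J)
      have g4 : ((⌊(w + lam) * J⌋₊ : ℕ) : ℝ) < ((⌊w * J⌋₊ + 1 + ⌊lam * J⌋₊ + 1 : ℕ) : ℝ) := by
        push_cast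
        linarith
      have g5 : ⌊(w + lam) * J⌋₊ < ⌊w * J⌋₊ + 1 + ⌊lam * J⌋₊ + 1 := by exact_mod_cast g4
      omega
    · rw [hY] at e
      simp only [Prod.mk.injEq] at e
      exact hyy ω ω' e.2.2
  -- the chain
  have b2 : ∀ l, r₀ ≤ l → l < r → CH q' (fun ω (j : Fin (K + 3)) =>
      ⌊jr F ⌊w * J⌋₊ (2 ^ (n l * J)) (c l) z' (fun v => g v l) j (slam F ⌊w * J⌋₊ ω)⌋) Y ≤
      (∑ j ∈ range (K + 3), η l j) * J + C := by
    intro l hl0 hl
    have h1 := Hjr hWJ (σ := 2 ^ (n l * J)) (κ := c l) (zl := z') (G := fun v => g v l) hq'l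
      (fun v => by
        refine (MvPolynomial.totalDegree_sub _ _).trans (max_le ?_ ?_)
        · exact (totalDegree_X _).le.trans (by omega)
        · exact ((hlb l hl0 (by omega)).deg v).trans (by omega)) Y
      (fun ω (j : Fin (K + 2 + 1)) => Uj l j ω) (fun ω ω' _ _ e => by
        rw [hY] at e
        simp only [Prod.mk.injEq] at e
        exact (hyy ω ω' e.2.2).1) (fun ω ω' j e => by
        rw [hUj] at e
        refine fl_scale (by positivity) ?_ (Real.rpow_pos_of_pos (by norm_num) _) e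
        rw [one_mul]
        exact (scale_le hw0 J j).1)
    refine h1.trans (add_le_add ?_ le_rfl)
    refine (CH_pis h0 _ Y).trans ?_
    have h2 : ∀ j ∈ (univ : Finset (Fin (K + 2 + 1))), CH q' (fun ω => Uj l j ω) Y ≤
        η l j * J := by
      intro j _
      refine le_trans (CH_mono_cond h0 fun ω ω' _ _ e => ?_) (hH₁ l j hl0 hl j.2)
      rw [hY] at e
      simp only [Prod.mk.injEq] at e ⊢
      exact ⟨e.1, congrFun (congrFun e.2.1 l) j, e.2.2⟩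
    refine (Finset.sum_le_sum h2).trans (le_of_eq ?_)
    rw [← Finset.sum_mul, Fin.sum_univ_eq_sum_range (η l) (K + 2 + 1)]
  -- together
  have b3 : CH q' (fun ω => ctxN F c r₀ r ⌊w * J⌋₊ ⌊(w + lam) * J⌋₊ K z' g n (vg w J F ω)) Y ≤
      CH q' (fun ω => (cV0 ((range r₀).image c) ⌊w * J⌋₊ ⌊(w + lam) * J⌋₊ F (vg w J F ω),
        fun (l : Fin r) => fun (j : Fin (K + 3)) => if r₀ ≤ (l : ℕ) then
          ⌊jr F ⌊w * J⌋₊ (2 ^ (n l * J)) (c l) z' (fun v => g v l) j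
            (slam F ⌊w * J⌋₊ ω)⌋ else 0)) Y := by
    refine CH_mono_left h0 fun ω ω' _ _ e => ?_
    simp only [Prod.mk.injEq] at e
    obtain ⟨⟨e1, e2⟩, -⟩ := e
    refine Prod.ext e1 (funext fun l => funext fun j => ?_)
    dsimp only [ctxN]
    by_cases h : (r₀ ≤ l ∧ l < r) ∧ j < K + 3
    · rw [if_pos h, if_pos h]
      have e3 := congrFun (congrFun e2 ⟨l, h.1.2⟩) ⟨j, h.2⟩
      simp only [if_pos h.1.1] at e3
      exact e3
    · rw [if_neg h, if_neg h]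
  have b4 := CH_subadd h0
    (fun ω => cV0 ((range r₀).image c) ⌊w * J⌋₊ ⌊(w + lam) * J⌋₊ F (vg w J F ω))
    (fun ω (l : Fin r) => fun (j : Fin (K + 3)) => if r₀ ≤ (l : ℕ) then
          ⌊jr F ⌊w * J⌋₊ (2 ^ (n l * J)) (c l) z' (fun v => g v l) j
            (slam F ⌊w * J⌋₊ ω)⌋ else 0) Y
  have b5 : CH q' (fun ω (l : Fin r) => fun (j : Fin (K + 3)) => if r₀ ≤ (l : ℕ) then
          ⌊jr F ⌊w * J⌋₊ (2 ^ (n l * J)) (c l) z' (fun v => g v l) j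
            (slam F ⌊w * J⌋₊ ω)⌋ else 0) Y ≤ δ₁ * J + r * C := by
    refine (CH_pis h0 _ Y).trans ?_
    have h2 : ∀ l ∈ (univ : Finset (Fin r)), CH q' (fun ω => fun (j : Fin (K + 3)) =>
        if r₀ ≤ (l : ℕ) then ⌊jr F ⌊w * J⌋₊ (2 ^ (n l * J)) (c l) z' (fun v => g v l) j
            (slam F ⌊w * J⌋₊ ω)⌋ else 0) Y ≤
        (if r₀ ≤ (l : ℕ) then (∑ j ∈ range (K + 3), η l j) * J else 0) + C := by
      intro l _
      by_cases hl0 : r₀ ≤ (l : ℕ)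
      · simp only [if_pos hl0]
        exact b2 l hl0 l.2
      · simp only [if_neg hl0]
        rw [CH_eq_zero h0 fun _ _ _ _ _ => rfl]
        linarith
    refine (Finset.sum_le_sum h2).trans ?_
    rw [Finset.sum_add_distrib, Finset.sum_const, Finset.card_univ, Fintype.card_fin,
      nsmul_eq_mul, Fin.sum_univ_eq_sum_range (fun l => if r₀ ≤ l then
        (∑ j ∈ range (K + 3), η l j) * (J : ℝ) else 0) r]
    have e1 : ∑ l ∈ range r, (if r₀ ≤ l then (∑ j ∈ range (K + 3), η l j) * (J : ℝ) else 0) =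
        ∑ l ∈ Finset.Ico r₀ r, (∑ j ∈ range (K + 3), η l j) * (J : ℝ) := by
      rw [← Finset.sum_filter]
      refine Finset.sum_congr ?_ fun _ _ => rfl
      ext l
      simp only [Finset.mem_filter, Finset.mem_range, Finset.mem_Ico]
      exact and_comm
    rw [e1, ← Finset.sum_mul]
    have e2 := mul_le_mul_of_nonneg_right hη hJ0
    linarith
  linarith

end Pool.AJX
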